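import Mathlib

/-!
Definitions for MP_62f958_co (induced forests, Havel-Hakimi residue, diameter).
-/

namespace Pool.Agent.FRD

/-- One Havel-Hakimi step on a list sorted in non-increasing order: remove the largest entry `d`
(the head), subtract `1` from each of the next `d` entries, and re-sort in non-increasing order. -/
def hhStep : List ℕ → List ℕ
  | [] => []
  | d :: t => (((t.take d).map (fun x => x - 1) ++ t.drop d : List ℕ) : Multiset ℕ).sort (· ≥ ·)

theorem length_hhStep (d : ℕ) (t : List ℕ) : (hhStep (d :: t)).length = t.length := by
  unfold hhStep
  rw [Multiset.length_sort]
  simp only [Multiset.coe_card, List.length_append, List.length_map, List.length_take,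
    List.length_drop]
  omega

/-- The Havel-Hakimi residue of a list sorted in non-increasing order: as long as the largest entry
(the head) is not `0` perform a Havel-Hakimi step; when the largest entry is `0` (so every entry
is `0`), count the entries. -/
def residueList : List ℕ → ℕ
  | [] => 0
  | d :: t => if d = 0 then t.length + 1 else residueList (hhStep (d :: t))
termination_by l => l.length
decreasing_by rw [length_hhStep]; exact Nat.lt_succ_self _

/-- The Havel-Hakimi residue of a finite graph: the residue of its degree sequence, sorted in
non-increasing order. -/
def residue {V : Type} [Fintype V] (G : SimpleGraph V) [DecidableRel G.Adj] : ℕ :=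
  residueList (((Finset.univ : Finset V).val.map (fun v => G.degree v)).sort (· ≥ ·))

open scoped Classical in
/-- The largest number of vertices of an induced subgraph of `G` that is a forest. -/
noncomputable def forestNumber {V : Type} [Fintype V] (G : SimpleGraph V) : ℕ :=
  ((Finset.univ : Finset V).powerset.filter
    (fun S : Finset V => (G.induce (S : Set V)).IsAcyclic)).sup Finset.card

/-! ### Auxiliary functions -/

/-- Residue of the numbers `c v`, `v ∈ S`. -/
def R {V : Type} (c : V → ℕ) (S : Finset V) : ℕ := residueList ((S.val.map c).sort (· ≥ ·))

open scoped Classical in
/-- `c` decreased by one on `T`. -/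
noncomputable def dec {V : Type} (c : V → ℕ) (T : Finset V) : V → ℕ :=
  fun x => c x - if x ∈ T then 1 else 0

open scoped Classical in
/-- number of neighbours of `v` in `S`. -/
noncomputable def dg {V : Type} (H : SimpleGraph V) (S : Finset V) (v : V) : ℕ :=
  (S.filter (fun w => H.Adj v w)).card

/-- `H` realises `c` on `S`. -/
def Real {V : Type} (H : SimpleGraph V) (c : V → ℕ) (S : Finset V) : Prop :=
  ∀ v ∈ S, dg H S v = c v

/-- `c` is the degree function of some graph on `S`. -/
def Gr {V : Type} (c : V → ℕ) (S : Finset V) : Prop := ∃ H : SimpleGraph V, Real H c S

end Pool.Agent.FRD
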