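import Pool.Agent.FRD.Defs

/-! From the main induction to the theorem: shortest paths, star forests. -/

namespace Pool.Agent.FRD

/-- Statement proved by the main induction (`Main.lean`). -/
def MainProp {V : Type} [Fintype V] (G : SimpleGraph V) [DecidableRel G.Adj] : Prop :=
  open scoped Classical in
  ∀ (m : ℕ) (a b : Fin m → V), Function.Injective a → Function.Injective b →
    (∀ i j, a i ≠ b j) → (∀ i j, G.Adj (a i) (b j) ↔ i = j) →
    (∀ i j, ¬ G.Adj (a i) (a j)) → (∀ i j, ¬ G.Adj (b i) (b j)) →
    ∃ W : Finset V, (∀ x ∈ W, ∀ y ∈ W, ¬ G.Adj x y) ∧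
      residue G + min ((Finset.univ.filter (fun i => a i ∈ W)).card)
        ((Finset.univ.filter (fun i => b i ∈ W)).card) ≤ W.card

/-- A geodesic of length `diam G`. -/
theorem exists_geodesic {V : Type} [Fintype V] (G : SimpleGraph V) (hG : G.Connected) :
    ∃ p : ℕ → V, (∀ i < G.diam, G.Adj (p i) (p (i + 1))) ∧
      ∀ i j, i ≤ j → j ≤ G.diam → j ≤ i + G.dist (p i) (p j) := by
  have := hG.nonempty
  obtain ⟨u, v, huv⟩ := G.exists_dist_eq_diam
  obtain ⟨w, hw⟩ := hG.exists_walk_length_eq_dist u v
  have hlen : w.length = G.diam := by rw [hw, huv]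
  refine ⟨w.getVert, fun i hi => w.adj_getVert_succ (by omega), ?_⟩
  have hstep : ∀ i k, i + k ≤ G.diam → G.dist (w.getVert i) (w.getVert (i + k)) ≤ k := by
    intro i k
    induction k with
    | zero =>
      intro _
      simp
    | succ k ih =>
      intro h
      have h1 := ih (by omega)
      have h2 := hG.dist_triangle (u := w.getVert i) (v := w.getVert (i + k))
        (w := w.getVert (i + k + 1))
      have h3 : G.Adj (w.getVert (i + k)) (w.getVert (i + k + 1)) :=
        w.adj_getVert_succ (by omega)
      have h4 := SimpleGraph.dist_le h3.toWalk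
      have h5 : h3.toWalk.length = 1 := rfl
      have : i + (k + 1) = i + k + 1 := by ring
      rw [this]
      omega
  intro i j hij hj
  have h1 := hstep 0 i (by omega)
  have h2 := hstep j (G.diam - j) (by omega)
  rw [Nat.zero_add, SimpleGraph.Walk.getVert_zero] at h1
  rw [Nat.add_sub_cancel' hj, ← hlen, SimpleGraph.Walk.getVert_length] at h2
  have h3 := hG.dist_triangle (u := u) (v := w.getVert i) (w := v)
  have h4 := hG.dist_triangle (u := w.getVert i) (v := w.getVert j) (w := v)
  omega

/-- stars are acyclic -/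
theorem acyclic_of_star {V : Type} (G : SimpleGraph V) (S W : Finset V)
    (hW : ∀ x ∈ W, ∀ y ∈ W, ¬ G.Adj x y)
    (hX : ∀ x ∈ S, x ∉ W → ∀ y ∈ S, y ∉ W → ¬ G.Adj x y)
    (hXX : ∀ x ∈ S, x ∉ W → ∀ y ∈ S, y ∉ W → ∀ w, G.Adj w x → G.Adj w y → x = y) :
    (G.induce (S : Set V)).IsAcyclic := by
  intro v c hc
  have key : ∀ u ∈ c.support, (u : V) ∉ W := by
    intro u hu huW
    have h2 := hc.ncard_neighborSet_toSubgraph_eq_two hu
    obtain ⟨x, y, hxy, hset⟩ := Set.ncard_eq_two.1 h2
    have hx : c.toSubgraph.Adj u x := by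
      have : x ∈ c.toSubgraph.neighborSet u := by rw [hset]; simp
      exact this
    have hy : c.toSubgraph.Adj u y := by
      have : y ∈ c.toSubgraph.neighborSet u := by rw [hset]; simp
      exact this
    have hx' : G.Adj (u : V) (x : V) := by
      have := hx.adj_sub
      simpa using this
    have hy' : G.Adj (u : V) (y : V) := by
      have := hy.adj_sub
      simpa using this
    have hxW : (x : V) ∉ W := fun h => hW _ huW _ h hx'
    have hyW : (y : V) ∉ W := fun h => hW _ huW _ h hy'
    exact hxy (Subtype.ext (hXX x (by exact_mod_cast x.2) hxW y (by exact_mod_cast y.2) hyW u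
      hx' hy'))
  have hv := c.start_mem_support
  have h2 := hc.ncard_neighborSet_toSubgraph_eq_two hv
  obtain ⟨x, y, hxy, hset⟩ := Set.ncard_eq_two.1 h2
  have hx : c.toSubgraph.Adj v x := by
    have : x ∈ c.toSubgraph.neighborSet v := by rw [hset]; simp
    exact this
  have hx' : G.Adj (v : V) (x : V) := by
    have := hx.adj_sub
    simpa using this
  have hxs : x ∈ c.support := by
    have := hx.snd_mem
    rwa [SimpleGraph.Walk.mem_verts_toSubgraph] at this
  exact hX v (by exact_mod_cast v.2) (key v hv) x (by exact_mod_cast x.2) (key x hxs) hx'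

theorem le_forestNumber {V : Type} [Fintype V] (G : SimpleGraph V) (S : Finset V)
    (hS : (G.induce (S : Set V)).IsAcyclic) : S.card ≤ forestNumber G := by
  unfold forestNumber
  exact Finset.le_sup (f := Finset.card) (by simpa using hS)

open scoped Classical in
/-- adding the missing centres -/
theorem star_bound {V : Type} [Fintype V] (G : SimpleGraph V) (m : ℕ) (c : Fin m → V)
    (hinj : Function.Injective c) (W : Finset V) (hW : ∀ x ∈ W, ∀ y ∈ W, ¬ G.Adj x y)
    (hc : ∀ i j, ¬ G.Adj (c i) (c j)) (hcc : ∀ i j w, G.Adj w (c i) → G.Adj w (c j) → i = j) :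
    W.card + m ≤ forestNumber G + (Finset.univ.filter (fun i => c i ∈ W)).card := by
  set X : Finset V := (Finset.univ.filter (fun i => c i ∉ W)).image c with hX
  have hdisj : Disjoint W X := by
    rw [Finset.disjoint_right]
    intro x hx
    rw [hX, Finset.mem_image] at hx
    obtain ⟨i, hi, rfl⟩ := hx
    exact (Finset.mem_filter.1 hi).2
  have hmem : ∀ x ∈ W ∪ X, x ∉ W → ∃ i, x = c i := by
    intro x hx hxW
    rcases Finset.mem_union.1 hx with h | h
    · exact absurd h hxW
    · rw [hX, Finset.mem_image] at h
      obtain ⟨i, _, rfl⟩ := h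
      exact ⟨i, rfl⟩
  have hac : (G.induce ((W ∪ X : Finset V) : Set V)).IsAcyclic := by
    refine acyclic_of_star G (W ∪ X) W hW ?_ ?_
    · intro x hx hxW y hy hyW
      obtain ⟨i, rfl⟩ := hmem x hx hxW
      obtain ⟨j, rfl⟩ := hmem y hy hyW
      exact hc i j
    · intro x hx hxW y hy hyW w h1 h2
      obtain ⟨i, rfl⟩ := hmem x hx hxW
      obtain ⟨j, rfl⟩ := hmem y hy hyW
      rw [hcc i j w h1 h2]
  have hle := le_forestNumber G _ hac
  rw [Finset.card_union_of_disjoint hdisj, hX, Finset.card_image_of_injective _ hinj] at hle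
  have hsum := Finset.card_filter_add_card_filter_not (s := (Finset.univ : Finset (Fin m)))
    (fun i => c i ∈ W)
  rw [Finset.card_univ, Fintype.card_fin] at hsum
  omega

/-- On a shortest path `p 0, ..., p D` between two vertices at distance `D = diam G` take
`a j = p (3 j)`, `b j = p (3 j + 1)` for `j < m = ⌈D / 3⌉`. With `W` from `MainProp`, `W` together
with all the `a j ∉ W` (if fewer `a j` than `b j` are in `W`; otherwise the `b j ∉ W`) induces a
disjoint union of stars: the chosen `a j` are pairwise at distance `≥ 3`. -/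
theorem final {V : Type} [Fintype V] (G : SimpleGraph V) [DecidableRel G.Adj]
    (h : MainProp G) (hG : G.Connected) :
    residue G + ⌈(G.diam : ℚ) / 3⌉₊ ≤ forestNumber G := by
  classical
  obtain ⟨p, hadj, hdist⟩ := exists_geodesic G hG
  set D := G.diam with hD
  set m := ⌈(D : ℚ) / 3⌉₊ with hm
  have hm3 : ∀ j < m, 3 * j + 1 ≤ D := by
    intro j hj
    have h1 : (j : ℚ) < (D : ℚ) / 3 := Nat.lt_ceil.1 hj
    rw [lt_div_iff₀ (by norm_num)] at h1
    have h2 : j * 3 < D := by exact_mod_cast h1
    omega
  -- distances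
  have hadj1 : ∀ x y, G.Adj x y → G.dist x y ≤ 1 := by
    intro x y hxy
    exact SimpleGraph.dist_le hxy.toWalk
  have hgap : ∀ i j, i ≤ D → j ≤ D → G.Adj (p i) (p j) → i ≤ j + 1 ∧ j ≤ i + 1 := by
    intro i j hi hj hij
    have h1 := hadj1 _ _ hij
    have h1' := hadj1 _ _ hij.symm
    constructor
    · by_contra hcon
      have := hdist j i (by omega) hi
      omega
    · by_contra hcon
      have := hdist i j (by omega) hj
      omega
  have hpinj : ∀ i j, i ≤ D → j ≤ D → p i = p j → i = j := by
    intro i j hi hj hij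
    rcases le_total i j with hle | hle
    · have := hdist i j hle hj
      rw [hij, SimpleGraph.dist_self] at this
      omega
    · have := hdist j i hle hi
      rw [hij, SimpleGraph.dist_self] at this
      omega
  have hcommon : ∀ i j w, i ≤ D → j ≤ D → G.Adj w (p i) → G.Adj w (p j) → j ≤ i + 2 := by
    intro i j w hi hj h1 h2
    by_contra hcon
    have h3 := hdist i j (by omega) hj
    have h4 := hG.dist_triangle (u := p i) (v := w) (w := p j)
    have h5 := hadj1 _ _ h1.symm
    have h6 := hadj1 _ _ h2
    omega
  have hlt : ∀ i : Fin m, 3 * (i : ℕ) + 1 ≤ D := fun i => hm3 i i.2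
  set a : Fin m → V := fun i => p (3 * i) with ha
  set b : Fin m → V := fun i => p (3 * i + 1) with hb
  have ainj : Function.Injective a := by
    intro i j hij
    have := hpinj _ _ (by have := hlt i; omega) (by have := hlt j; omega) hij
    exact Fin.ext (by omega)
  have binj : Function.Injective b := by
    intro i j hij
    have := hpinj _ _ (hlt i) (hlt j) hij
    exact Fin.ext (by omega)
  have hab : ∀ i j, a i ≠ b j := by
    intro i j hij
    have := hpinj _ _ (by have := hlt i; omega) (hlt j) hij
    omega
  have habadj : ∀ i j, G.Adj (a i) (b j) ↔ i = j := by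
    intro i j
    constructor
    · intro hij
      have := hgap _ _ (by have := hlt i; omega) (hlt j) hij
      exact Fin.ext (by omega)
    · rintro rfl
      exact hadj _ (by have := hlt i; omega)
  have haa : ∀ i j, ¬ G.Adj (a i) (a j) := by
    intro i j hij
    have := hgap _ _ (by have := hlt i; omega) (by have := hlt j; omega) hij
    have hij' : i = j := Fin.ext (by omega)
    subst hij'
    exact G.loopless.irrefl _ hij
  have hbb : ∀ i j, ¬ G.Adj (b i) (b j) := by
    intro i j hij
    have := hgap _ _ (hlt i) (hlt j) hij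
    have hij' : i = j := Fin.ext (by omega)
    subst hij'
    exact G.loopless.irrefl _ hij
  obtain ⟨W, hW, hcard⟩ := h m a b ainj binj hab habadj haa hbb
  have hA := star_bound G m a ainj W hW haa (by
    intro i j w h1 h2
    have h3 := hcommon _ _ w (by have := hlt i; omega) (by have := hlt j; omega) h1 h2
    have h4 := hcommon _ _ w (by have := hlt j; omega) (by have := hlt i; omega) h2 h1
    exact Fin.ext (by omega))
  have hB := star_bound G m b binj W hW hbb (by
    intro i j w h1 h2
    have h3 := hcommon _ _ w (hlt i) (hlt j) h1 h2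
    have h4 := hcommon _ _ w (hlt j) (hlt i) h2 h1
    exact Fin.ext (by omega))
  rcases min_choice ((Finset.univ.filter (fun i => a i ∈ W)).card)
    ((Finset.univ.filter (fun i => b i ∈ W)).card) with hmin | hmin
  · rw [hmin] at hcard
    omega
  · rw [hmin] at hcard
    omega

end Pool.Agent.FRD
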