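import Pool.Agent.FRD.Defs

/-! Two-switches and the Havel-Hakimi theorem. -/

namespace Pool.Agent.FRD

variable {V : Type}

/-- replacing one neighbour by another one does not change the degree -/
theorem dg_swap [DecidableEq V] {H H' : SimpleGraph V} {S : Finset V} {x p q : V} (hp : p ∈ S)
    (hq : q ∈ S) (hxp : H.Adj x p) (hxq : ¬ H.Adj x q)
    (h : ∀ y, H'.Adj x y ↔ (H.Adj x y ∧ y ≠ p) ∨ y = q) : dg H' S x = dg H S x := by
  classical
  unfold dg
  have h1 : S.filter (fun w => H'.Adj x w) = insert q ((S.filter (fun w => H.Adj x w)).erase p) := by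
    ext y
    simp only [Finset.mem_filter, Finset.mem_insert, Finset.mem_erase, h]
    constructor
    · rintro ⟨hy, ⟨h1, h2⟩ | h1⟩
      · exact Or.inr ⟨h2, hy, h1⟩
      · exact Or.inl h1
    · rintro (h1 | ⟨h1, h2, h3⟩)
      · exact ⟨h1 ▸ hq, Or.inr h1⟩
      · exact ⟨h2, Or.inl ⟨h3, h1⟩⟩
  have hpm : p ∈ S.filter (fun w => H.Adj x w) := Finset.mem_filter.2 ⟨hp, hxp⟩
  have hqm : q ∉ (S.filter (fun w => H.Adj x w)).erase p := by
    intro hc
    exact hxq (Finset.mem_filter.1 (Finset.mem_of_mem_erase hc)).2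
  have e : ∀ (i1 : DecidablePred fun w => H'.Adj x w),
      (@Finset.filter V (fun w => H'.Adj x w) i1 S).card =
      (S.filter (fun w => H.Adj x w)).card := by
    intro i1
    have : @Finset.filter V (fun w => H'.Adj x w) i1 S =
        insert q ((S.filter (fun w => H.Adj x w)).erase p) := by
      convert h1
    rw [this, Finset.card_insert_of_notMem hqm, Finset.card_erase_of_mem hpm]
    have : 0 < (S.filter (fun w => H.Adj x w)).card := Finset.card_pos.2 ⟨p, hpm⟩
    omega
  convert e _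

theorem dg_congr {H H' : SimpleGraph V} {S : Finset V} {x : V}
    (h : ∀ y, H'.Adj x y ↔ H.Adj x y) : dg H' S x = dg H S x := by
  classical
  unfold dg
  congr 1
  ext y
  simp only [Finset.mem_filter, h]

/-- one more neighbour -/
theorem dg_insert {H H' : SimpleGraph V} {S : Finset V} {x q : V}
    (hq : q ∈ S) (hxq : ¬ H.Adj x q)
    (h : ∀ y, H'.Adj x y ↔ H.Adj x y ∨ y = q) : dg H' S x = dg H S x + 1 := by
  classical
  unfold dg
  have h1 : S.filter (fun w => H'.Adj x w) = insert q (S.filter (fun w => H.Adj x w)) := by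
    ext y
    simp only [Finset.mem_filter, Finset.mem_insert, h]
    constructor
    · rintro ⟨hy, h1 | h1⟩
      · exact Or.inr ⟨hy, h1⟩
      · exact Or.inl h1
    · rintro (h1 | ⟨h1, h2⟩)
      · exact ⟨h1 ▸ hq, Or.inr h1⟩
      · exact ⟨h1, Or.inl h2⟩
  have hqm : q ∉ S.filter (fun w => H.Adj x w) := by
    intro hc
    exact hxq (Finset.mem_filter.1 hc).2
  have := Finset.card_insert_of_notMem hqm
  rw [← h1] at this
  convert this

/-- one neighbour less -/
theorem dg_remove {H H' : SimpleGraph V} {S : Finset V} {x p : V}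
    (hp : p ∈ S) (hxp : H.Adj x p)
    (h : ∀ y, H'.Adj x y ↔ H.Adj x y ∧ y ≠ p) : dg H' S x + 1 = dg H S x := by
  have h2 : ¬ H'.Adj x p := fun hc => ((h p).1 hc).2 rfl
  have h3 : ∀ y, H.Adj x y ↔ H'.Adj x y ∨ y = p := by
    intro y
    rw [h y]
    constructor
    · intro hy
      by_cases e : y = p
      · exact Or.inr e
      · exact Or.inl ⟨hy, e⟩
    · rintro (⟨h4, _⟩ | h4)
      · exact h4
      · exact h4 ▸ hxp
  exact (dg_insert hp h2 h3).symm

/-- a neighbour `w ≠ u` of `t` which is not a neighbour of `u` -/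
theorem exists_priv {H : SimpleGraph V} {S : Finset V} {t u : V} (ht : t ∈ S) (hu : u ∈ S)
    (h : dg H S u < dg H S t ∨ (dg H S u ≤ dg H S t ∧ ∃ v ∈ S, v ≠ t ∧ H.Adj u v ∧ ¬ H.Adj t v)) :
    ∃ w ∈ S, w ≠ u ∧ H.Adj t w ∧ ¬ H.Adj u w := by
  classical
  by_contra hcon
  push Not at hcon
  -- `N(t) \ {u} ⊆ N(u) \ {t}`
  have hsub : (S.filter (fun w => H.Adj t w)).erase u ⊆ (S.filter (fun w => H.Adj u w)).erase t := by
    intro w hw
    rw [Finset.mem_erase, Finset.mem_filter] at hw ⊢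
    exact ⟨hw.2.2.ne', hw.2.1, hcon w hw.2.1 hw.1 hw.2.2⟩
  have hdt : dg H S t = (S.filter (fun w => H.Adj t w)).card := by unfold dg; congr
  have hdu : dg H S u = (S.filter (fun w => H.Adj u w)).card := by unfold dg; congr
  have hcard : ((S.filter (fun w => H.Adj t w)).erase u).card + dg H S u =
      ((S.filter (fun w => H.Adj u w)).erase t).card + dg H S t := by
    by_cases hadj : H.Adj t u
    · have h1 : u ∈ S.filter (fun w => H.Adj t w) := Finset.mem_filter.2 ⟨hu, hadj⟩
      have h2 : t ∈ S.filter (fun w => H.Adj u w) := Finset.mem_filter.2 ⟨ht, hadj.symm⟩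
      rw [Finset.card_erase_of_mem h1, Finset.card_erase_of_mem h2, hdt, hdu]
      have := Finset.card_pos.2 ⟨u, h1⟩
      have := Finset.card_pos.2 ⟨t, h2⟩
      omega
    · have h1 : u ∉ S.filter (fun w => H.Adj t w) := fun hc => hadj (Finset.mem_filter.1 hc).2
      have h2 : t ∉ S.filter (fun w => H.Adj u w) := fun hc =>
        hadj (Finset.mem_filter.1 hc).2.symm
      rw [Finset.erase_eq_of_notMem h1, Finset.erase_eq_of_notMem h2, hdt, hdu]
      omega
  have hle := Finset.card_le_card hsub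
  rcases h with h | ⟨h, v, hv, hvt, huv, htv⟩
  · omega
  · have hlt : ((S.filter (fun w => H.Adj t w)).erase u).card <
        ((S.filter (fun w => H.Adj u w)).erase t).card := by
      refine Finset.card_lt_card (Finset.ssubset_iff_subset_ne.2 ⟨hsub, ?_⟩)
      intro he
      have h1 : v ∈ (S.filter (fun w => H.Adj u w)).erase t :=
        Finset.mem_erase.2 ⟨hvt, Finset.mem_filter.2 ⟨hv, huv⟩⟩
      rw [← he] at h1
      exact htv (Finset.mem_filter.1 (Finset.mem_of_mem_erase h1)).2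
    omega

/-- Two-switch at `v`: replace the neighbour `u` of `v` by `t`, keeping all degrees (inside `S`).
(Some `w ∈ S` is adjacent to `t`, not to `u`, `w ≠ u`; replace `vu, tw` by `vt, uw`.) -/
theorem switch [DecidableEq V] {H : SimpleGraph V} {S : Finset V} {v t u : V} (hv : v ∈ S)
    (ht : t ∈ S) (hu : u ∈ S) (htv : t ≠ v) (htu : t ≠ u) (hvu : H.Adj v u) (hvt : ¬ H.Adj v t)
    (hd : dg H S u ≤ dg H S t) :
    ∃ H' : SimpleGraph V, (∀ x ∈ S, dg H' S x = dg H S x) ∧ H'.Adj v t ∧ ¬ H'.Adj v u ∧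
      ∀ x, x ≠ t → x ≠ u → (H'.Adj v x ↔ H.Adj v x) := by
  obtain ⟨w, hw, hwu, htw, huw⟩ := exists_priv (H := H) ht hu
    (Or.inr ⟨hd, v, hv, htv.symm, hvu.symm, fun hc => hvt hc.symm⟩)
  have hwt : w ≠ t := htw.ne'
  have hwv : w ≠ v := by
    rintro rfl
    exact hvt htw.symm
  have huv : u ≠ v := hvu.ne'
  let H' : SimpleGraph V :=
    { Adj := fun x y => (H.Adj x y ∧ ¬ ((x = v ∧ y = u) ∨ (x = u ∧ y = v)) ∧
          ¬ ((x = t ∧ y = w) ∨ (x = w ∧ y = t))) ∨
        ((x = v ∧ y = t) ∨ (x = t ∧ y = v)) ∨ ((x = u ∧ y = w) ∨ (x = w ∧ y = u))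
      symm := by
        constructor
        intro x y h
        rcases h with ⟨h1, h2, h3⟩ | h | h
        · exact Or.inl ⟨h1.symm, by tauto, by tauto⟩
        · exact Or.inr (Or.inl (by tauto))
        · exact Or.inr (Or.inr (by tauto))
      loopless := by
        constructor
        intro x h
        rcases h with ⟨h1, _⟩ | (⟨h1, h2⟩ | ⟨h1, h2⟩) | (⟨h1, h2⟩ | ⟨h1, h2⟩)
        · exact h1.ne rfl
        · exact htv (h2.symm.trans h1)
        · exact htv (h1.symm.trans h2)
        · exact hwu (h2.symm.trans h1)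
        · exact hwu (h1.symm.trans h2) }
  have hA : ∀ x y, H'.Adj x y ↔ ((H.Adj x y ∧ ¬ ((x = v ∧ y = u) ∨ (x = u ∧ y = v)) ∧
          ¬ ((x = t ∧ y = w) ∨ (x = w ∧ y = t))) ∨
        ((x = v ∧ y = t) ∨ (x = t ∧ y = v)) ∨ ((x = u ∧ y = w) ∨ (x = w ∧ y = u))) :=
    fun x y => Iff.rfl
  refine ⟨H', ?_, ?_, ?_, ?_⟩
  · intro x hx
    by_cases h1 : x = v
    · subst h1
      refine dg_swap hu ht hvu hvt (fun y => ?_)
      rw [hA]
      constructor
      · rintro (⟨h1, h2, h3⟩ | (⟨h1, h2⟩ | ⟨h1, h2⟩) | (⟨h1, h2⟩ | ⟨h1, h2⟩))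
        · exact Or.inl ⟨h1, fun h => h2 (Or.inl ⟨rfl, h⟩)⟩
        · exact Or.inr h2
        · exact absurd h1.symm htv
        · exact absurd h1.symm huv
        · exact absurd h1.symm hwv
      · rintro (⟨h1, h2⟩ | h1)
        · refine Or.inl ⟨h1, ?_, ?_⟩
          · rintro (⟨_, h3⟩ | ⟨h3, _⟩)
            · exact h2 h3
            · exact huv h3.symm
          · rintro (⟨h3, _⟩ | ⟨h3, _⟩)
            · exact htv h3.symm
            · exact hwv h3.symm
        · exact Or.inr (Or.inl (Or.inl ⟨rfl, h1⟩))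
    by_cases h2 : x = u
    · subst h2
      refine dg_swap hv hw hvu.symm huw (fun y => ?_)
      rw [hA]
      constructor
      · rintro (⟨h1, h2, h3⟩ | (⟨h1, h2⟩ | ⟨h1, h2⟩) | (⟨h1, h2⟩ | ⟨h1, h2⟩))
        · exact Or.inl ⟨h1, fun h => h2 (Or.inr ⟨rfl, h⟩)⟩
        · exact absurd h1 huv
        · exact absurd h1.symm htu
        · exact Or.inr h2
        · exact absurd h1.symm hwu
      · rintro (⟨h1, h2⟩ | h1)
        · refine Or.inl ⟨h1, ?_, ?_⟩
          · rintro (⟨h3, _⟩ | ⟨_, h3⟩)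
            · exact huv h3
            · exact h2 h3
          · rintro (⟨h3, _⟩ | ⟨h3, _⟩)
            · exact htu h3.symm
            · exact hwu h3.symm
        · exact Or.inr (Or.inr (Or.inl ⟨rfl, h1⟩))
    by_cases h3 : x = t
    · subst h3
      refine dg_swap hw hv htw (fun hc => hvt hc.symm) (fun y => ?_)
      rw [hA]
      constructor
      · rintro (⟨h1, h2, h3⟩ | (⟨h1, h2⟩ | ⟨h1, h2⟩) | (⟨h1, h2⟩ | ⟨h1, h2⟩))
        · exact Or.inl ⟨h1, fun h => h3 (Or.inl ⟨rfl, h⟩)⟩
        · exact absurd h1 htv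
        · exact Or.inr h2
        · exact absurd h1 htu
        · exact absurd h1.symm hwt
      · rintro (⟨h1, h2⟩ | h1)
        · refine Or.inl ⟨h1, ?_, ?_⟩
          · rintro (⟨h3, _⟩ | ⟨h3, _⟩)
            · exact htv h3
            · exact htu h3
          · rintro (⟨_, h3⟩ | ⟨h3, _⟩)
            · exact h2 h3
            · exact hwt h3.symm
        · exact Or.inr (Or.inl (Or.inr ⟨rfl, h1⟩))
    by_cases h4 : x = w
    · subst h4
      refine dg_swap ht hu htw.symm (fun hc => huw hc.symm) (fun y => ?_)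
      rw [hA]
      constructor
      · rintro (⟨h1, h2, h3⟩ | (⟨h1, h2⟩ | ⟨h1, h2⟩) | (⟨h1, h2⟩ | ⟨h1, h2⟩))
        · exact Or.inl ⟨h1, fun h => h3 (Or.inr ⟨rfl, h⟩)⟩
        · exact absurd h1 hwv
        · exact absurd h1 hwt
        · exact absurd h1 hwu
        · exact Or.inr h2
      · rintro (⟨h1, h2⟩ | h1)
        · refine Or.inl ⟨h1, ?_, ?_⟩
          · rintro (⟨h3, _⟩ | ⟨h3, _⟩)
            · exact hwv h3
            · exact hwu h3
          · rintro (⟨h3, _⟩ | ⟨_, h3⟩)
            · exact hwt h3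
            · exact h2 h3
        · exact Or.inr (Or.inr (Or.inr ⟨rfl, h1⟩))
    refine dg_congr (fun y => ?_)
    rw [hA]
    constructor
    · rintro (⟨h, _⟩ | (⟨h, _⟩ | ⟨h, _⟩) | (⟨h, _⟩ | ⟨h, _⟩))
      · exact h
      · exact absurd h h1
      · exact absurd h h3
      · exact absurd h h2
      · exact absurd h h4
    · intro h
      refine Or.inl ⟨h, ?_, ?_⟩
      · rintro (⟨h5, _⟩ | ⟨h5, _⟩)
        · exact h1 h5
        · exact h2 h5
      · rintro (⟨h5, _⟩ | ⟨h5, _⟩)
        · exact h3 h5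
        · exact h4 h5
  · rw [hA]
    exact Or.inr (Or.inl (Or.inl ⟨rfl, rfl⟩))
  · rw [hA]
    rintro (⟨_, h2, _⟩ | (⟨_, h2⟩ | ⟨h2, _⟩) | (⟨h2, _⟩ | ⟨h2, _⟩))
    · exact h2 (Or.inl ⟨rfl, rfl⟩)
    · exact htu h2.symm
    · exact htv h2.symm
    · exact huv h2.symm
    · exact hwv h2.symm
  · intro x hxt hxu
    rw [hA]
    constructor
    · rintro (⟨h, _⟩ | (⟨_, h⟩ | ⟨h, _⟩) | (⟨h, _⟩ | ⟨h, _⟩))
      · exact h
      · exact absurd h hxt
      · exact absurd h.symm htv
      · exact absurd h.symm huv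
      · exact absurd h.symm hwv
    · intro h
      refine Or.inl ⟨h, ?_, ?_⟩
      · rintro (⟨_, h5⟩ | ⟨h5, _⟩)
        · exact hxu h5
        · exact huv h5.symm
      · rintro (⟨h5, _⟩ | ⟨h5, _⟩)
        · exact htv h5.symm
        · exact hwv h5.symm

theorem hh_aux [DecidableEq V] {c : V → ℕ} {S T : Finset V} {v : V} (hv : v ∈ S)
    (hT : T ⊆ S.erase v) (hcard : T.card = c v)
    (htop : ∀ t ∈ T, ∀ u ∈ S.erase v, u ∉ T → c u ≤ c t) (n : ℕ) :
    ∀ H : SimpleGraph V, Real H c S → (∀ m, m = n →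
      ∀ [DecidablePred fun t => ¬ H.Adj v t], (T.filter (fun t => ¬ H.Adj v t)).card = m →
      ∃ H' : SimpleGraph V, Real H' c S ∧ ∀ t ∈ T, H'.Adj v t) := by
  classical
  induction n with
  | zero =>
    intro H hH m hm _ hf
    refine ⟨H, hH, fun t ht => ?_⟩
    subst hm
    rw [Finset.card_eq_zero, Finset.filter_eq_empty_iff] at hf
    by_contra hc
    exact hf ht hc
  | succ n ih =>
    intro H hH m hm _ hf
    subst hm
    have hpos : 0 < (T.filter (fun t => ¬ H.Adj v t)).card := by rw [hf]; omega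
    obtain ⟨t, ht⟩ := Finset.card_pos.1 hpos
    rw [Finset.mem_filter] at ht
    have htS := hT ht.1
    rw [Finset.mem_erase] at htS
    -- a neighbour outside `T`
    have hN : (S.filter (fun w => H.Adj v w)).card = T.card := by
      have := hH v hv
      rw [hcard, ← this]
      unfold dg
      congr
    obtain ⟨u, hu, huT⟩ : ∃ u ∈ S.filter (fun w => H.Adj v w), u ∉ T := by
      by_contra hcon
      push Not at hcon
      have hsub : S.filter (fun w => H.Adj v w) ⊆ T := fun x hx => hcon x hx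
      have heq := Finset.eq_of_subset_of_card_le hsub hN.ge
      rw [← heq] at ht
      exact ht.2 (Finset.mem_filter.1 ht.1).2
    rw [Finset.mem_filter] at hu
    have huv : u ≠ v := hu.2.ne'
    have htu : t ≠ u := fun h => huT (h ▸ ht.1)
    obtain ⟨H', h1, h2, h3, h4⟩ := switch hv htS.2 hu.1 htS.1 htu hu.2 ht.2 (by
      rw [hH u hu.1, hH t htS.2]
      exact htop t ht.1 u (Finset.mem_erase.2 ⟨huv, hu.1⟩) huT)
    refine ih H' (fun x hx => (h1 x hx).trans (hH x hx)) n rfl ?_
    have he : T.filter (fun x => ¬ H.Adj v x) = insert t (T.filter (fun x => ¬ H'.Adj v x)) := by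
      ext x
      rw [Finset.mem_insert, Finset.mem_filter, Finset.mem_filter]
      constructor
      · rintro ⟨hx, hx2⟩
        by_cases e : x = t
        · exact Or.inl e
        · refine Or.inr ⟨hx, fun hc => hx2 ?_⟩
          have hxu : x ≠ u := fun h => huT (h ▸ hx)
          exact (h4 x e hxu).1 hc
      · rintro (e | ⟨hx, hx2⟩)
        · exact e ▸ ht
        · refine ⟨hx, fun hc => hx2 ?_⟩
          by_cases e : x = t
          · exact e ▸ h2
          · have hxu : x ≠ u := fun h => huT (h ▸ hx)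
            exact (h4 x e hxu).2 hc
    have hnt : t ∉ T.filter (fun x => ¬ H'.Adj v x) := fun hc => (Finset.mem_filter.1 hc).2 h2
    rw [he, Finset.card_insert_of_notMem hnt] at hf
    omega

/-- removing `v` from `S` -/
theorem dg_erase [DecidableEq V] {H : SimpleGraph V} {S : Finset V} {v x : V} (hv : v ∈ S) :
    (H.Adj x v → dg H (S.erase v) x + 1 = dg H S x) ∧
    (¬ H.Adj x v → dg H (S.erase v) x = dg H S x) := by
  classical
  have h0 : dg H (S.erase v) x = ((S.filter (fun w => H.Adj x w)).erase v).card := by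
    unfold dg
    congr 1
    ext y
    simp only [Finset.mem_filter, Finset.mem_erase]
    tauto
  have h1 : dg H S x = (S.filter (fun w => H.Adj x w)).card := by unfold dg; congr
  constructor
  · intro h
    have hm : v ∈ S.filter (fun w => H.Adj x w) := Finset.mem_filter.2 ⟨hv, h⟩
    rw [h0, h1, Finset.card_erase_of_mem hm]
    have := Finset.card_pos.2 ⟨v, hm⟩
    omega
  · intro h
    have hm : v ∉ S.filter (fun w => H.Adj x w) := fun hc => h (Finset.mem_filter.1 hc).2
    rw [h0, h1, Finset.erase_eq_of_notMem hm]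

/-- Havel-Hakimi / Kleitman-Wang: lay off `v` on a top set `T`. -/
theorem Gr.hh [DecidableEq V] {c : V → ℕ} {S T : Finset V} {v : V} (h : Gr c S) (hv : v ∈ S)
    (hT : T ⊆ S.erase v) (hcard : T.card = c v)
    (htop : ∀ t ∈ T, ∀ u ∈ S.erase v, u ∉ T → c u ≤ c t) :
    Gr (dec c T) (S.erase v) ∧ ∀ t ∈ T, 1 ≤ c t := by
  classical
  obtain ⟨H0, hH0⟩ := h
  obtain ⟨H, hH, hHT⟩ := hh_aux hv hT hcard htop _ H0 hH0 _ rfl rfl
  have hN : S.filter (fun w => H.Adj v w) = T := by
    have hsub : T ⊆ S.filter (fun w => H.Adj v w) := fun t ht =>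
      Finset.mem_filter.2 ⟨Finset.mem_of_mem_erase (hT ht), hHT t ht⟩
    refine (Finset.eq_of_subset_of_card_le hsub ?_).symm
    rw [hcard, ← hH v hv]
    unfold dg
    apply le_of_eq
    congr
  refine ⟨⟨H, fun x hx => ?_⟩, fun t ht => ?_⟩
  · have hxS := Finset.mem_of_mem_erase hx
    have hd := hH x hxS
    unfold dec
    by_cases hxT : x ∈ T
    · have := (dg_erase (H := H) (x := x) hv).1 (hHT x hxT).symm
      simp only [hxT, if_true]
      omega
    · have hna : ¬ H.Adj x v := by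
        intro hc
        apply hxT
        rw [← hN]
        exact Finset.mem_filter.2 ⟨hxS, hc.symm⟩
      have := (dg_erase (H := H) (x := x) hv).2 hna
      simp only [hxT, if_false]
      omega
  · have := (dg_erase (H := H) (x := t) hv).1 (hHT t ht).symm
    have h2 := hH t (Finset.mem_of_mem_erase (hT ht))
    omega

theorem Gr.card_le [DecidableEq V] {c : V → ℕ} {S : Finset V} {v : V} (h : Gr c S) (hv : v ∈ S) :
    c v ≤ (S.erase v).card := by
  classical
  obtain ⟨H, hH⟩ := h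
  rw [← hH v hv]
  unfold dg
  refine Finset.card_le_card (fun x hx => ?_)
  rw [Finset.mem_filter] at hx
  exact Finset.mem_erase.2 ⟨hx.2.ne', hx.1⟩

/-- Unit transfer from a larger to a smaller entry keeps graphicality. -/
theorem Gr.transfer [DecidableEq V] {c c' : V → ℕ} {S : Finset V} {a b : V} (h : Gr c S)
    (ha : a ∈ S) (hb : b ∈ S) (hab : c b < c a) (h1 : c' a + 1 = c a) (h2 : c' b = c b + 1)
    (h3 : ∀ x ∈ S, x ≠ a → x ≠ b → c' x = c x) : Gr c' S := by
  obtain ⟨H, hH⟩ := h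
  have hne : a ≠ b := by rintro rfl; omega
  obtain ⟨w, hw, hwb, haw, hbw⟩ := exists_priv (H := H) ha hb
    (Or.inl (by rw [hH a ha, hH b hb]; exact hab))
  have hwa : w ≠ a := haw.ne'
  let H' : SimpleGraph V :=
    { Adj := fun x y => (H.Adj x y ∧ ¬ ((x = a ∧ y = w) ∨ (x = w ∧ y = a))) ∨
        ((x = b ∧ y = w) ∨ (x = w ∧ y = b))
      symm := by
        constructor
        intro x y h
        rcases h with ⟨h1, h2⟩ | h
        · exact Or.inl ⟨h1.symm, by tauto⟩
        · exact Or.inr (by tauto)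
      loopless := by
        constructor
        intro x h
        rcases h with ⟨h1, _⟩ | (⟨h1, h2⟩ | ⟨h1, h2⟩)
        · exact h1.ne rfl
        · exact hwb (h2.symm.trans h1)
        · exact hwb (h1.symm.trans h2) }
  have hA : ∀ x y, H'.Adj x y ↔ ((H.Adj x y ∧ ¬ ((x = a ∧ y = w) ∨ (x = w ∧ y = a))) ∨
        ((x = b ∧ y = w) ∨ (x = w ∧ y = b))) := fun x y => Iff.rfl
  refine ⟨H', fun x hx => ?_⟩
  by_cases e1 : x = a
  · subst e1
    have : dg H' S x + 1 = dg H S x := by
      refine dg_remove hw haw (fun y => ?_)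
      rw [hA]
      constructor
      · rintro (⟨h1, h2⟩ | (⟨h1, h2⟩ | ⟨h1, h2⟩))
        · exact ⟨h1, fun h => h2 (Or.inl ⟨rfl, h⟩)⟩
        · exact absurd h1 hne
        · exact absurd h1.symm hwa
      · rintro ⟨h1, h2⟩
        refine Or.inl ⟨h1, ?_⟩
        rintro (⟨_, h3⟩ | ⟨h3, _⟩)
        · exact h2 h3
        · exact hwa h3.symm
    have h4 := hH x ha
    omega
  by_cases e2 : x = b
  · subst e2
    have : dg H' S x = dg H S x + 1 := by
      refine dg_insert hw hbw (fun y => ?_)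
      rw [hA]
      constructor
      · rintro (⟨h1, h2⟩ | (⟨h1, h2⟩ | ⟨h1, h2⟩))
        · exact Or.inl h1
        · exact Or.inr h2
        · exact absurd h1.symm hwb
      · rintro (h1 | h1)
        · refine Or.inl ⟨h1, ?_⟩
          rintro (⟨h3, _⟩ | ⟨h3, _⟩)
          · exact hne h3.symm
          · exact hwb h3.symm
        · exact Or.inr (Or.inl ⟨rfl, h1⟩)
    have h4 := hH x hb
    omega
  rw [h3 x hx e1 e2, ← hH x hx]
  by_cases e3 : x = w
  · subst e3
    refine dg_swap ha hb haw.symm (fun hc => hbw hc.symm) (fun y => ?_)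
    rw [hA]
    constructor
    · rintro (⟨h1, h2⟩ | (⟨h1, h2⟩ | ⟨h1, h2⟩))
      · exact Or.inl ⟨h1, fun h => h2 (Or.inr ⟨rfl, h⟩)⟩
      · exact absurd h1 hwb
      · exact Or.inr h2
    · rintro (⟨h1, h2⟩ | h1)
      · refine Or.inl ⟨h1, ?_⟩
        rintro (⟨h3, _⟩ | ⟨_, h3⟩)
        · exact hwa h3
        · exact h2 h3
      · exact Or.inr (Or.inr ⟨rfl, h1⟩)
  refine dg_congr (fun y => ?_)
  rw [hA]
  constructor
  · rintro (⟨h, _⟩ | (⟨h, _⟩ | ⟨h, _⟩))
    · exact h
    · exact absurd h e2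
    · exact absurd h e3
  · intro h
    refine Or.inl ⟨h, ?_⟩
    rintro (⟨h5, _⟩ | ⟨h5, _⟩)
    · exact e1 h5
    · exact e3 h5

/-- adding an edge, with a description of the new graph -/
theorem Real.addEdge' {H : SimpleGraph V} {c c' : V → ℕ} {S : Finset V} {u w : V}
    (hr : Real H c S) (hu : u ∈ S) (hw : w ∈ S) (huw : u ≠ w) (hn : ¬ H.Adj u w)
    (h1 : c' u = c u + 1) (h2 : c' w = c w + 1) (h3 : ∀ x ∈ S, x ≠ u → x ≠ w → c' x = c x) :
    ∃ H' : SimpleGraph V, Real H' c' S ∧
      ∀ x y, H'.Adj x y ↔ H.Adj x y ∨ ((x = u ∧ y = w) ∨ (x = w ∧ y = u)) := by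
  let H' : SimpleGraph V :=
    { Adj := fun x y => H.Adj x y ∨ ((x = u ∧ y = w) ∨ (x = w ∧ y = u))
      symm := by
        constructor
        intro x y h
        rcases h with h | h
        · exact Or.inl h.symm
        · exact Or.inr (by tauto)
      loopless := by
        constructor
        intro x h
        rcases h with h | (⟨h1, h2⟩ | ⟨h1, h2⟩)
        · exact h.ne rfl
        · exact huw (h1.symm.trans h2)
        · exact huw (h2.symm.trans h1) }
  have hA : ∀ x y, H'.Adj x y ↔ H.Adj x y ∨ ((x = u ∧ y = w) ∨ (x = w ∧ y = u)) :=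
    fun x y => Iff.rfl
  refine ⟨H', fun x hx => ?_, hA⟩
  by_cases e1 : x = u
  · subst e1
    have : dg H' S x = dg H S x + 1 := by
      refine dg_insert hw hn (fun y => ?_)
      rw [hA]
      constructor
      · rintro (h | (⟨_, h⟩ | ⟨h, _⟩))
        · exact Or.inl h
        · exact Or.inr h
        · exact absurd h huw
      · rintro (h | h)
        · exact Or.inl h
        · exact Or.inr (Or.inl ⟨rfl, h⟩)
    rw [this, hr x hu, h1]
  by_cases e2 : x = w
  · subst e2
    have : dg H' S x = dg H S x + 1 := by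
      refine dg_insert hu (fun hc => hn hc.symm) (fun y => ?_)
      rw [hA]
      constructor
      · rintro (h | (⟨h, _⟩ | ⟨_, h⟩))
        · exact Or.inl h
        · exact absurd h.symm huw
        · exact Or.inr h
      · rintro (h | h)
        · exact Or.inl h
        · exact Or.inr (Or.inr ⟨rfl, h⟩)
    rw [this, hr x hw, h2]
  rw [h3 x hx e1 e2, ← hr x hx]
  refine dg_congr (fun y => ?_)
  rw [hA]
  constructor
  · rintro (h | (⟨h, _⟩ | ⟨h, _⟩))
    · exact h
    · exact absurd h e1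
    · exact absurd h e2
  · exact fun h => Or.inl h

theorem Real.addEdge [DecidableEq V] {H : SimpleGraph V} {c c' : V → ℕ} {S : Finset V} {u w : V}
    (hr : Real H c S) (hu : u ∈ S) (hw : w ∈ S) (huw : u ≠ w) (hn : ¬ H.Adj u w)
    (h1 : c' u = c u + 1) (h2 : c' w = c w + 1) (h3 : ∀ x ∈ S, x ≠ u → x ≠ w → c' x = c x) :
    Gr c' S := by
  obtain ⟨H', h, _⟩ := hr.addEdge' hu hw huw hn h1 h2 h3
  exact ⟨H', h⟩

open scoped Classical in
theorem Real.addMatching_aux (n : ℕ) : ∀ {H : SimpleGraph V} {c : V → ℕ} {S A : Finset V},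
    A.card = 2 * n → Real H c S → A ⊆ S → (∀ x ∈ A, ∀ y ∈ A, ¬ H.Adj x y) →
    Gr (fun x => c x + if x ∈ A then 1 else 0) S := by
  induction n with
  | zero =>
    intro H c S A hcard hr hA hind
    rw [mul_zero, Finset.card_eq_zero] at hcard
    subst hcard
    refine ⟨H, fun x hx => ?_⟩
    simpa using hr x hx
  | succ n ih =>
    intro H c S A hcard hr hA hind
    have h1 : 1 < A.card := by omega
    obtain ⟨a, ha, b, hb, hab⟩ := Finset.one_lt_card.1 h1
    obtain ⟨H', hr', hA'⟩ := hr.addEdge' (c' := fun x => c x + if x = a ∨ x = b then 1 else 0)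
      (hA ha) (hA hb) hab (hind a ha b hb) (by simp) (by simp)
      (fun x _ h1 h2 => by simp [h1, h2])
    have hcard' : ((A.erase a).erase b).card = 2 * n := by
      rw [Finset.card_erase_of_mem (Finset.mem_erase.2 ⟨hab.symm, hb⟩),
        Finset.card_erase_of_mem ha, hcard]
      omega
    have hsub : (A.erase a).erase b ⊆ A := fun x hx =>
      Finset.mem_of_mem_erase (Finset.mem_of_mem_erase hx)
    obtain ⟨K, hK⟩ := ih hcard' hr' (hsub.trans hA) (by
      intro x hx y hy hadj
      rcases (hA' x y).1 hadj with h | (⟨h, _⟩ | ⟨h, _⟩)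
      · exact hind x (hsub hx) y (hsub hy) h
      · exact (Finset.mem_erase.1 (Finset.mem_of_mem_erase hx)).1 h
      · exact (Finset.mem_erase.1 hx).1 h)
    refine ⟨K, fun x hx => ?_⟩
    rw [hK x hx]
    by_cases e1 : x = a
    · subst e1
      simp [ha, hab]
    by_cases e2 : x = b
    · subst e2
      simp [hb]
    simp [e1, e2]

open scoped Classical in
/-- Adding a perfect matching on an independent set `A` of even size. -/
theorem Real.addMatching {H : SimpleGraph V} {c : V → ℕ} {S A : Finset V}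
    (hr : Real H c S) (hA : A ⊆ S) (heven : Even A.card) (hind : ∀ x ∈ A, ∀ y ∈ A, ¬ H.Adj x y) :
    Gr (fun x => c x + if x ∈ A then 1 else 0) S := by
  obtain ⟨k, hk⟩ := heven
  exact Real.addMatching_aux k (by omega) hr hA hind

end Pool.Agent.FRD
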