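import Pool.Agent.FRD.Mono

/-! Deleting a (nearly maximal) local maximum does not decrease the residue. -/

namespace Pool.Agent.FRD

variable {V : Type} [DecidableEq V]

theorem L3_aux {S : Finset V} {c : V → ℕ} {v : V} {T : Finset V}
    (hTS : T ⊆ S.erase v) (hTc : T.card = c v)
    (top : ∀ t ∈ T, ∀ u ∈ S.erase v, u ∉ T → c u ≤ c t) :
    ∀ (k : ℕ) (N : Finset V), (N \ T).card = k → N ⊆ S.erase v → N.card = c v →
      (∀ y ∈ N, 1 ≤ c y) → Gr (dec c N) (S.erase v) →
      R (dec c T) (S.erase v) ≤ R (dec c N) (S.erase v) := by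
  intro k
  induction k with
  | zero =>
    intro N hk hN hNc _ _
    have h1 : N ⊆ T := Finset.sdiff_eq_empty_iff_subset.1 (Finset.card_eq_zero.1 hk)
    have h2 : N = T := Finset.eq_of_subset_of_card_le h1 (by omega)
    rw [h2]
  | succ k ih =>
    intro N hk hN hNc hNpos gN
    have hne : (N \ T).Nonempty := by rw [← Finset.card_pos]; omega
    obtain ⟨u, hu⟩ := hne
    have hu' := Finset.mem_sdiff.1 hu
    have hTN : (T \ N).Nonempty := by
      rw [← Finset.card_pos]
      have e1 := Finset.card_sdiff_add_card_inter T N
      have e2 := Finset.card_sdiff_add_card_inter N T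
      rw [Finset.inter_comm] at e2
      omega
    obtain ⟨t, ht⟩ := hTN
    have ht' := Finset.mem_sdiff.1 ht
    have hut : u ≠ t := fun e => hu'.2 (e ▸ ht'.1)
    have hcut : c u ≤ c t := top t ht'.1 u (hN hu'.1) hu'.2
    have hu1 := hNpos u hu'.1
    have hN1t : t ∈ insert t (N.erase u) := Finset.mem_insert_self _ _
    have hN1u : u ∉ insert t (N.erase u) := by simp [hut]
    have hN1x : ∀ x, x ≠ t → x ≠ u → (x ∈ insert t (N.erase u) ↔ x ∈ N) := by
      intro x hx hx'; simp [hx, hx']
    have d1t : dec c (insert t (N.erase u)) t = c t - 1 := dec_mem hN1t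
    have d1u : dec c (insert t (N.erase u)) u = c u := dec_nmem hN1u
    have dt : dec c N t = c t := dec_nmem ht'.2
    have du : dec c N u = c u - 1 := dec_mem hu'.1
    have dx : ∀ x, x ≠ t → x ≠ u → dec c (insert t (N.erase u)) x = dec c N x := by
      intro x hx hx'
      by_cases h : x ∈ N
      · rw [dec_mem h, dec_mem ((hN1x x hx hx').2 h)]
      · rw [dec_nmem h, dec_nmem (fun g => h ((hN1x x hx hx').1 g))]
    have g1 : Gr (dec c (insert t (N.erase u))) (S.erase v) := by
      refine gN.transfer (a := t) (b := u) (hTS ht'.1) (hN hu'.1) (by omega) (by omega) (by omega) ?_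
      intro x _ hx hx'
      exact dx x hx hx'
    have hi := ih (insert t (N.erase u)) ?_ ?_ ?_ ?_ g1
    · refine hi.trans ?_
      refine L2 (a := t) (b := u) (hTS ht'.1) (hN hu'.1) hut.symm g1 gN (by omega) (by omega)
        (by omega) ?_
      intro x _ hx hx'
      exact (dx x hx hx').symm
    · have : insert t (N.erase u) \ T = (N \ T).erase u := by
        ext x
        simp only [Finset.mem_sdiff, Finset.mem_insert, Finset.mem_erase]
        constructor
        · rintro ⟨rfl | ⟨h1, h2⟩, h3⟩
          · exact absurd ht'.1 h3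
          · exact ⟨h1, h2, h3⟩
        · rintro ⟨h1, h2, h3⟩
          exact ⟨Or.inr ⟨h1, h2⟩, h3⟩
      rw [this, Finset.card_erase_of_mem hu, hk]
      rfl
    · exact Finset.insert_subset (hTS ht'.1) ((Finset.erase_subset _ _).trans hN)
    · rw [Finset.card_insert_of_notMem (by simp [ht'.2]), Finset.card_erase_of_mem hu'.1]
      have : 0 < N.card := Finset.card_pos.2 ⟨u, hu'.1⟩
      omega
    · intro y hy
      rcases Finset.mem_insert.1 hy with rfl | hy
      · omega
      · exact hNpos y (Finset.mem_of_mem_erase hy)

/-- Deleting a vertex of maximum degree does not decrease the residue. -/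
theorem L3 {S N : Finset V} {c : V → ℕ} {v : V} (hv : v ∈ S) (gc : Gr c S)
    (hmax : ∀ x ∈ S, c x ≤ c v) (hpos : 1 ≤ c v) (hN : N ⊆ S.erase v) (hNc : N.card = c v)
    (hNpos : ∀ y ∈ N, 1 ≤ c y) (gN : Gr (dec c N) (S.erase v)) :
    R c S ≤ R (dec c N) (S.erase v) := by
  obtain ⟨T, hTS, hTc, top⟩ := exists_top c (S.erase v) (c v) (gc.card_le hv)
  rw [R_rec hv hmax hpos hTS hTc top]
  exact L3_aux hTS hTc top _ N rfl hN hNc hNpos gN

theorem dec_comm (c : V → ℕ) (A B : Finset V) : dec (dec c A) B = dec (dec c B) A := by
  funext x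
  by_cases hA : x ∈ A
  · by_cases hB : x ∈ B
    · rw [dec_mem hB, dec_mem hA, dec_mem hA, dec_mem hB]
    · rw [dec_nmem hB, dec_mem hA, dec_mem hA, dec_nmem hB]
  · by_cases hB : x ∈ B
    · rw [dec_mem hB, dec_nmem hA, dec_nmem hA, dec_mem hB]
    · rw [dec_nmem hB, dec_nmem hA, dec_nmem hA, dec_nmem hB]

def LMat (V : Type) [DecidableEq V] (n : ℕ) : Prop :=
  ∀ (S N : Finset V) (c : V → ℕ) (z : V), S.card = n → z ∈ S → Gr c S → 1 ≤ c z →
    N ⊆ S.erase z → N.card = c z → (∀ y ∈ N, 1 ≤ c y) → (∀ y ∈ N, c y ≤ c z) →
    (∀ x ∈ S, c x ≤ c z + 1) → Gr (dec c N) (S.erase z) → R c S ≤ R (dec c N) (S.erase z)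

theorem LM_step {n : ℕ} (ih : LMat V n) : LMat V (n + 1) := by
  intro S N c z hS hz gc hpos hN hNc hNpos hNle hmax gN
  by_cases hall : ∀ x ∈ S, c x ≤ c z
  · exact L3 hz gc hall hpos hN hNc hNpos gN
  push Not at hall
  obtain ⟨v, hv, hvz⟩ := hall
  have hcv : c v = c z + 1 := by have := hmax v hv; omega
  have hvnz : v ≠ z := by rintro rfl; omega
  have hvN : v ∉ N := fun h => by have := hNle v h; omega
  have hzN : z ∉ N := fun h => by have := hN h; simp at this
  have hmaxv : ∀ x ∈ S, c x ≤ c v := fun x hx => by rw [hcv]; exact hmax x hx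
  have hvSz : v ∈ S.erase z := Finset.mem_erase.2 ⟨hvnz, hv⟩
  have hzSv : z ∈ S.erase v := Finset.mem_erase.2 ⟨hvnz.symm, hz⟩
  have hSvc : (S.erase v).card = n := by rw [Finset.card_erase_of_mem hv]; omega
  have g0v : dec c N v = c v := dec_nmem hvN
  have hmaxg0 : ∀ x ∈ S.erase z, dec c N x ≤ dec c N v := by
    intro x hx
    rw [g0v]
    exact (dec_le x).trans (hmaxv x (Finset.mem_erase.1 hx).2)
  -- the common ground set
  set S2 := (S.erase v).erase z with hS2
  have hS2' : (S.erase z).erase v = S2 := by rw [hS2, Finset.erase_right_comm]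
  have memS2 : ∀ {x}, x ∈ S2 ↔ x ≠ z ∧ x ≠ v ∧ x ∈ S := by
    intro x; simp [hS2, Finset.mem_erase]
  have hNS2 : N ⊆ S2 := by
    intro x hx
    have := Finset.mem_erase.1 (hN hx)
    exact memS2.2 ⟨this.1, fun e => hvN (e ▸ hx), this.2⟩
  have hS2c : S2.card + 1 = (S.erase v).card := by
    rw [hS2, Finset.card_erase_of_mem hzSv]
    have : 0 < (S.erase v).card := Finset.card_pos.2 ⟨z, hzSv⟩
    omega
  have topg : ∀ {T0 : Finset V}, (∀ t ∈ T0, ∀ u ∈ S2, u ∉ T0 →
      (2 * c u + if u ∉ N then 1 else 0) ≤ (2 * c t + if t ∉ N then 1 else 0)) →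
      ∀ t ∈ T0, ∀ u ∈ S2, u ∉ T0 → c u ≤ c t ∧ dec c N u ≤ dec c N t := by
    intro T0 hT0 t ht u hu huT
    have h5 := hT0 t ht u hu huT
    by_cases htN : t ∈ N
    · by_cases huN : u ∈ N
      · rw [if_neg (not_not.2 huN), if_neg (not_not.2 htN)] at h5
        rw [dec_mem htN, dec_mem huN]; omega
      · rw [if_pos huN, if_neg (not_not.2 htN)] at h5
        rw [dec_mem htN, dec_nmem huN]; omega
    · by_cases huN : u ∈ N
      · rw [if_neg (not_not.2 huN), if_pos htN] at h5
        rw [dec_nmem htN, dec_mem huN]; omega
      · rw [if_pos huN, if_pos htN] at h5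
        rw [dec_nmem htN, dec_nmem huN]; omega
  by_cases hF : c z + 1 ≤ (S2.filter (fun x => c z ≤ c x)).card
  · -- case alpha
    obtain ⟨T, hTS, hTc, hT⟩ := exists_top (fun x => 2 * c x + if x ∉ N then 1 else 0) S2 (c z + 1)
      (hF.trans (Finset.card_filter_le _ _))
    have tops := topg hT
    have hTge : ∀ t ∈ T, c z ≤ c t := by
      intro t ht
      by_contra hcon
      have hsub : S2.filter (fun x => c z ≤ c x) ⊆ T.erase t := by
        intro x hx
        rw [Finset.mem_filter] at hx
        have hxt : x ≠ t := by rintro rfl; exact hcon hx.2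
        refine Finset.mem_erase.2 ⟨hxt, ?_⟩
        by_contra hxT
        have := (tops t ht x hx.1 hxT).1
        omega
      have := Finset.card_le_card hsub
      rw [Finset.card_erase_of_mem ht] at this
      omega
    have hTSv : T ⊆ S.erase v := fun x hx => Finset.mem_of_mem_erase (hTS hx)
    have hTSz : T ⊆ (S.erase z).erase v := by rw [hS2']; exact hTS
    have topc : ∀ t ∈ T, ∀ u ∈ S.erase v, u ∉ T → c u ≤ c t := by
      intro t ht u hu huT
      by_cases huz : u = z
      · rw [huz]; exact hTge t ht
      · exact (tops t ht u (Finset.mem_erase.2 ⟨huz, hu⟩) huT).1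
    have topg0 : ∀ t ∈ T, ∀ u ∈ (S.erase z).erase v, u ∉ T → dec c N u ≤ dec c N t := by
      intro t ht u hu huT
      rw [hS2'] at hu
      exact (tops t ht u hu huT).2
    have e1 : R c S = R (dec c T) (S.erase v) :=
      R_rec hv hmaxv (by omega) hTSv (by omega) topc
    have e2 : R (dec c N) (S.erase z) = R (dec (dec c N) T) ((S.erase z).erase v) :=
      R_rec hvSz hmaxg0 (by omega) hTSz (by omega) topg0
    obtain ⟨gf, pf⟩ := gc.hh hv hTSv (by omega) topc
    obtain ⟨gf', pf'⟩ := gN.hh hvSz hTSz (by omega) topg0
    rw [e1, e2]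
    have hzT : z ∉ T := fun h => by have := memS2.1 (hTS h); exact this.1 rfl
    have hfz : dec c T z = c z := dec_nmem hzT
    rw [hS2', dec_comm c N T] at gf' ⊢
    refine ih (S.erase v) N (dec c T) z hSvc hzSv gf (by omega) hNS2 (by omega) ?_ ?_ ?_ gf'
    · intro y hy
      by_cases hyT : y ∈ T
      · have := pf' y hyT
        rw [dec_mem hy] at this
        rw [dec_mem hyT]; exact this
      · rw [dec_nmem hyT]; exact hNpos y hy
    · intro y hy
      rw [hfz]
      exact (dec_le y).trans (hNle y hy)
    · intro x hx
      rw [hfz]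
      exact (dec_le x).trans (hmax x (Finset.mem_of_mem_erase hx))
  · -- case beta
    have hkS2 : c z ≤ S2.card := by
      have := gc.card_le hv
      omega
    obtain ⟨T0, hTS, hTc, hT⟩ := exists_top (fun x => 2 * c x + if x ∉ N then 1 else 0) S2 (c z) hkS2
    have tops := topg hT
    have hA : ∀ u ∈ S2, u ∉ T0 → c u < c z := by
      intro u hu huT
      by_contra hcon
      have hsub : insert u T0 ⊆ S2.filter (fun x => c z ≤ c x) := by
        intro x hx
        rcases Finset.mem_insert.1 hx with rfl | hx
        · exact Finset.mem_filter.2 ⟨hu, by omega⟩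
        · have := (tops x hx u hu huT).1
          exact Finset.mem_filter.2 ⟨hTS hx, by omega⟩
      have := Finset.card_le_card hsub
      rw [Finset.card_insert_of_notMem huT] at this
      omega
    have hzT0 : z ∉ T0 := fun h => (memS2.1 (hTS h)).1 rfl
    have hTSv : insert z T0 ⊆ S.erase v := by
      refine Finset.insert_subset hzSv ?_
      exact fun x hx => Finset.mem_of_mem_erase (hTS hx)
    have hTc' : (insert z T0).card = c v := by
      rw [Finset.card_insert_of_notMem hzT0, hTc, hcv]
    have topc : ∀ t ∈ insert z T0, ∀ u ∈ S.erase v, u ∉ insert z T0 → c u ≤ c t := by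
      intro t ht u hu huT
      rw [Finset.mem_insert, not_or] at huT
      have hu2 : u ∈ S2 := Finset.mem_erase.2 ⟨huT.1, hu⟩
      rcases Finset.mem_insert.1 ht with rfl | ht
      · exact (hA u hu2 huT.2).le
      · exact (tops t ht u hu2 huT.2).1
    have e1 : R c S = R (dec c (insert z T0)) (S.erase v) :=
      R_rec hv hmaxv (by omega) hTSv hTc' topc
    obtain ⟨gf, pf⟩ := gc.hh hv hTSv hTc' topc
    -- the element `w`
    have hrest : (S2 \ T0).Nonempty := by
      rw [← Finset.card_pos, Finset.card_sdiff_of_subset hTS]
      have := gN.card_le hvSz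
      rw [hS2', g0v] at this
      omega
    obtain ⟨w, hw, hwmax⟩ := Finset.exists_max_image (S2 \ T0) (dec c N) hrest
    obtain ⟨hwS, hwT⟩ := Finset.mem_sdiff.1 hw
    have hwS' := memS2.1 hwS
    have hT'S : insert w T0 ⊆ (S.erase z).erase v := by
      rw [hS2']; exact Finset.insert_subset hwS hTS
    have hT'c : (insert w T0).card = dec c N v := by
      rw [Finset.card_insert_of_notMem hwT, hTc, g0v, hcv]
    have topg0 : ∀ t ∈ insert w T0, ∀ u ∈ (S.erase z).erase v, u ∉ insert w T0 →
        dec c N u ≤ dec c N t := by
      intro t ht u hu huT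
      rw [hS2'] at hu
      rw [Finset.mem_insert, not_or] at huT
      rcases Finset.mem_insert.1 ht with rfl | ht
      · exact hwmax u (Finset.mem_sdiff.2 ⟨hu, huT.2⟩)
      · exact (tops t ht u hu huT.2).2
    have e2 : R (dec c N) (S.erase z) = R (dec (dec c N) (insert w T0)) ((S.erase z).erase v) :=
      R_rec hvSz hmaxg0 (by omega) hT'S hT'c topg0
    obtain ⟨gf', pf'⟩ := gN.hh hvSz hT'S hT'c topg0
    rw [e1, e2]
    rw [hS2'] at gf' ⊢
    -- `2 ≤ c z`
    have hk2 : 2 ≤ c z := by
      by_contra hcon
      have hk1 : c z = 1 := by omega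
      have hNne : N.Nonempty := by rw [← Finset.card_pos]; omega
      obtain ⟨y, hy⟩ := hNne
      have hyT : y ∈ T0 := by
        by_contra hyT
        have := hA y (hNS2 hy) hyT
        have := hNpos y hy
        omega
      have := pf' y (Finset.mem_insert_of_mem hyT)
      rw [dec_mem hy] at this
      have := hNle y hy
      omega
    have hwlt := hA w hwS hwT
    have hwz : w ≠ z := hwS'.1
    -- values of `f`
    set f := dec c (insert z T0) with hf
    have fz : f z = c z - 1 := by rw [hf, dec_mem (Finset.mem_insert_self _ _)]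
    have fin : ∀ x ∈ T0, f x = c x - 1 := fun x hx => by
      rw [hf, dec_mem (Finset.mem_insert_of_mem hx)]
    have fout : ∀ x, x ≠ z → x ∉ T0 → f x = c x := fun x hx hx' => by
      rw [hf, dec_nmem (by simp [hx, hx'])]
    have hNz : ∀ y ∈ N, y ≠ z := fun y hy e => hzN (e ▸ hy)
    have fpos : ∀ y ∈ N, 1 ≤ f y := by
      intro y hy
      by_cases h : y ∈ T0
      · rw [fin y h]
        have := pf' y (Finset.mem_insert_of_mem h)
        rw [dec_mem hy] at this
        exact this
      · rw [fout y (hNz y hy) h]; exact hNpos y hy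
    have fle : ∀ x ∈ S2, f x ≤ c z := by
      intro x hx
      have := hmax x (memS2.1 hx).2.2
      by_cases h : x ∈ T0
      · rw [fin x h]; omega
      · rw [fout x (memS2.1 hx).1 h]; have := hA x hx h; omega
    have fleN : ∀ y ∈ N, f y ≤ c z - 1 := by
      intro y hy
      have := hNle y hy
      by_cases h : y ∈ T0
      · rw [fin y h]; omega
      · rw [fout y (hNz y hy) h]; have := hA y (hNS2 hy) h; omega
    -- the element `u`
    have hNwc : N.card - 1 ≤ (N.erase w).card := Finset.pred_card_le_card_erase
    have hNwne : (N.erase w).Nonempty := by rw [← Finset.card_pos]; omega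
    obtain ⟨u, hu, humin⟩ := Finset.exists_min_image (N.erase w) f hNwne
    have hu' := Finset.mem_erase.1 hu
    have huN := hu'.2
    have huw := hu'.1
    have huS := hNS2 huN
    set f' := dec (dec c N) (insert w T0) with hf'
    have f'u : f' u + 1 = f u := by
      have := fpos u huN
      by_cases h : u ∈ T0
      · rw [hf', dec_mem (Finset.mem_insert_of_mem h), dec_mem huN, fin u h]
        rw [fin u h] at this
        omega
      · rw [hf', dec_nmem (by simp [h, huw]), dec_mem huN, fout u (hNz u huN) h]
        rw [fout u (hNz u huN) h] at this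
        omega
    have f'N : ∀ y ∈ N, y ≠ w → f' y = f y - 1 := by
      intro y hy hyw
      by_cases h : y ∈ T0
      · rw [hf', dec_mem (Finset.mem_insert_of_mem h), dec_mem hy, fin y h]
      · rw [hf', dec_nmem (by simp [h, hyw]), dec_mem hy, fout y (hNz y hy) h]
    have g0w := pf' w (Finset.mem_insert_self _ _)
    have f'w : f' w + 1 = dec c N w := by
      rw [hf', dec_mem (Finset.mem_insert_self _ _)]; omega
    have fw : f w = c w := fout w hwz hwT
    -- the sequence `g`
    set g := dec f (N.erase u) with hg
    have gu : g u = f u := by rw [hg, dec_nmem (by simp)]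
    have gw : g w = dec c N w := by
      by_cases h : w ∈ N
      · rw [hg, dec_mem (Finset.mem_erase.2 ⟨Ne.symm huw, h⟩), dec_mem h, fw]
      · rw [hg, dec_nmem (fun h' => h (Finset.mem_of_mem_erase h')), dec_nmem h, fw]
    have gin : ∀ y ∈ N, y ≠ u → g y = f y - 1 := by
      intro y hy hyu
      rw [hg, dec_mem (Finset.mem_erase.2 ⟨hyu, hy⟩)]
    have gout : ∀ y, y ∉ N → g y = f y := by
      intro y hy
      rw [hg, dec_nmem (fun h' => hy (Finset.mem_of_mem_erase h'))]
    have gother : ∀ x ∈ S2, x ≠ u → x ≠ w → g x = f' x := by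
      intro x hx hxu hxw
      by_cases hxN : x ∈ N
      · rw [gin x hxN hxu, f'N x hxN hxw]
      · rw [gout x hxN]
        by_cases h : x ∈ T0
        · rw [fin x h, hf', dec_mem (Finset.mem_insert_of_mem h), dec_nmem hxN]
        · rw [fout x (memS2.1 hx).1 h, hf', dec_nmem (by simp [h, hxw]), dec_nmem hxN]
    -- `g` is graphic
    have gg : Gr g S2 := by
      obtain ⟨H1, hH1⟩ := gf'
      have hex : ∃ H : SimpleGraph V, Real H f' S2 ∧ ¬ H.Adj w u := by
        classical
        by_cases hadj : H1.Adj w u
        · -- find `u0`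
          have hu0 : ∃ u0 ∈ N.erase w, ¬ H1.Adj w u0 := by
            by_contra hcon
            push Not at hcon
            have hsub : N.erase w ⊆ S2.filter (fun x => H1.Adj w x) := by
              intro x hx
              exact Finset.mem_filter.2 ⟨hNS2 (Finset.mem_of_mem_erase hx), hcon x hx⟩
            have h7 := Finset.card_le_card hsub
            have h8 : dg H1 S2 w = f' w := hH1 w hwS
            unfold dg at h8
            have h9 : (S2.filter (fun x => H1.Adj w x)).card = f' w := by
              rw [← h8]
            have := dec_le (c := c) (T := N) w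
            omega
          obtain ⟨u0, hu0, hu0adj⟩ := hu0
          have hu0' := Finset.mem_erase.1 hu0
          have hu0u : u0 ≠ u := fun e => hu0adj (e ▸ hadj)
          obtain ⟨H', h1, h2, h3, _⟩ := switch (H := H1) (S := S2) (v := w) (t := u0) (u := u) hwS
            (hNS2 hu0'.2) huS hu0'.1 hu0u hadj hu0adj (by
              rw [hH1 u huS, hH1 u0 (hNS2 hu0'.2), f'N u0 hu0'.2 hu0'.1]
              have := humin u0 hu0
              omega)
          exact ⟨H', fun x hx => (h1 x hx).trans (hH1 x hx), h3⟩
        · exact ⟨H1, hH1, hadj⟩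
      obtain ⟨H, hH, hHn⟩ := hex
      refine hH.addEdge (u := w) (w := u) hwS huS (Ne.symm huw) hHn (by omega) (by omega) ?_
      intro x hx hxw hxu
      exact gother x hx hxu hxw
    -- first step
    have s1 : R f (S.erase v) ≤ R g S2 := by
      refine ih (S.erase v) (N.erase u) f z hSvc hzSv gf (by omega) ?_ ?_ ?_ ?_ ?_ gg
      · exact (Finset.erase_subset _ _).trans hNS2
      · rw [Finset.card_erase_of_mem huN, fz, hNc]
      · intro y hy; exact fpos y (Finset.mem_of_mem_erase hy)
      · intro y hy; rw [fz]; exact fleN y (Finset.mem_of_mem_erase hy)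
      · intro x hx
        by_cases hxz : x = z
        · rw [hxz]; omega
        · have := fle x (Finset.mem_erase.2 ⟨hxz, hx⟩)
          omega
    -- second step
    have hgle : ∀ x ∈ S2, g x ≤ f x := by
      intro x _; rw [hg]; exact dec_le x
    have s2 : R g S2 ≤ R f' S2 := by
      have r1 : f' u + 1 = g u := by omega
      have r2 : f' w + 1 = g w := by omega
      by_cases hcmp : g w ≤ g u
      · refine LK (b := u) (w := w) huS hwS huw gg gf' ?_ r1 r2
          (fun x hx h1 h2 => (gother x hx h1 h2).symm)
        have huP : u ∉ ((N.erase w).erase u) ∪ S2.filter (fun x => c x = c z + 1) := by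
          simp only [Finset.mem_union, Finset.mem_erase, Finset.mem_filter, not_or]
          refine ⟨by simp, ?_⟩
          rintro ⟨_, h⟩
          have := hNle u huN
          omega
        have hwP : w ∉ ((N.erase w).erase u) ∪ S2.filter (fun x => c x = c z + 1) := by
          simp only [Finset.mem_union, Finset.mem_erase, Finset.mem_filter, not_or]
          refine ⟨by simp, ?_⟩
          rintro ⟨_, h⟩
          omega
        refine ⟨hcmp, _, ?_, huP, hwP, ?_, ?_⟩
        · refine Finset.union_subset ?_ (Finset.filter_subset _ _)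
          exact (Finset.erase_subset _ _).trans ((Finset.erase_subset _ _).trans hNS2)
        · intro x hx
          have hdisj : Disjoint ((N.erase w).erase u) (S2.filter (fun x => c x = c z + 1)) := by
            rw [Finset.disjoint_left]
            intro y hy hy'
            have h1 := hNle y (Finset.mem_of_mem_erase (Finset.mem_of_mem_erase hy))
            have h2 := (Finset.mem_filter.1 hy').2
            omega
          rw [Finset.card_union_of_disjoint hdisj, Finset.card_erase_of_mem hu]
          have h1 := (hgle x hx).trans (fle x hx)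
          by_cases hSh : (S2.filter (fun x => c x = c z + 1)).card = 0
          · have h2 : g x ≤ c z - 1 := by
              refine (hgle x hx).trans ?_
              by_cases h : x ∈ T0
              · rw [fin x h]
                have h3 := hmax x (memS2.1 hx).2.2
                have h4 : c x ≠ c z + 1 := by
                  intro h4
                  have : x ∈ S2.filter (fun x => c x = c z + 1) := Finset.mem_filter.2 ⟨hx, h4⟩
                  rw [Finset.card_eq_zero.1 hSh] at this
                  simp at this
                omega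
              · rw [fout x (memS2.1 hx).1 h]; have := hA x hx h; omega
            omega
          · omega
        · right
          intro t ht
          rcases Finset.mem_union.1 ht with ht | ht
          · have ht1 := Finset.mem_erase.1 ht
            have ht2 := Finset.mem_erase.1 ht1.2
            rw [gin t ht2.2 ht1.1, gu]
            have := humin t ht1.2
            have := fpos t ht2.2
            omega
          · have ht1 := Finset.mem_filter.1 ht
            have htN : t ∉ N := fun h => by have := hNle t h; omega
            have htT : t ∈ T0 := by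
              by_contra htT
              have := hA t ht1.1 htT
              omega
            rw [gout t htN, fin t htT, gu]
            have := fleN u huN
            omega
      · refine LK (b := w) (w := u) hwS huS (Ne.symm huw) gg gf' ?_ r2 r1
          (fun x hx h1 h2 => (gother x hx h2 h1).symm)
        refine ⟨by omega, T0.erase u, ?_, ?_, by simp, ?_, ?_⟩
        · exact (Finset.erase_subset _ _).trans hTS
        · exact fun h => hwT (Finset.mem_of_mem_erase h)
        · intro x hx
          have h1 := (hgle x hx).trans (fle x hx)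
          have h2 : T0.card - 1 ≤ (T0.erase u).card := Finset.pred_card_le_card_erase
          omega
        · right
          intro t ht
          have ht1 := Finset.mem_erase.1 ht
          have htw : t ≠ w := fun e => hwT (e ▸ ht1.2)
          have hTt := hT t ht1.2 w hwS hwT
          have hct := pf t (Finset.mem_insert_of_mem ht1.2)
          by_cases htN : t ∈ N
          · rw [gin t htN ht1.1, fin t ht1.2, gw]
            have h3 := fpos t htN
            rw [fin t ht1.2] at h3
            by_cases hwN : w ∈ N
            · rw [dec_mem hwN]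
              rw [if_neg (not_not.2 hwN), if_neg (not_not.2 htN)] at hTt
              omega
            · rw [dec_nmem hwN]
              rw [if_pos hwN, if_neg (not_not.2 htN)] at hTt
              omega
          · rw [gout t htN, fin t ht1.2, gw]
            have h4 := dec_le (c := c) (T := N) w
            split_ifs at hTt <;> omega
    exact s1.trans s2

theorem LM_all (n : ℕ) : LMat V n := by
  induction n with
  | zero =>
    intro S N c z hS hz
    rw [Finset.card_eq_zero] at hS
    subst hS
    simp at hz
  | succ n ih => exact LM_step ih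

/-- Deleting a vertex `z` whose degree is at least that of all its neighbours, and at least the
maximum degree minus one, does not decrease the residue. -/
theorem LM {S N : Finset V} {c : V → ℕ} {z : V} (hz : z ∈ S) (gc : Gr c S) (hpos : 1 ≤ c z)
    (hN : N ⊆ S.erase z) (hNc : N.card = c z) (hNpos : ∀ y ∈ N, 1 ≤ c y)
    (hNle : ∀ y ∈ N, c y ≤ c z) (hmax : ∀ x ∈ S, c x ≤ c z + 1)
    (gN : Gr (dec c N) (S.erase z)) : R c S ≤ R (dec c N) (S.erase z) :=
  LM_all S.card S N c z rfl hz gc hpos hN hNc hNpos hNle hmax gN

end Pool.Agent.FRD
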