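import Pool.Agent.FRD.LocMax
import Pool.Agent.FRD.Final

/-! The main induction. -/

namespace Pool.Agent.FRD

noncomputable section

open scoped Classical

variable {V : Type}

/-- degree in `H` on `S`, plus one on `A`. -/
def cA (H : SimpleGraph V) (S A : Finset V) : V → ℕ :=
  fun v => dg H S v + if v ∈ A then 1 else 0

theorem cA_mem {H : SimpleGraph V} {S A : Finset V} {v : V} (h : v ∈ A) :
    cA H S A v = dg H S v + 1 := by simp [cA, h]

theorem cA_nmem {H : SimpleGraph V} {S A : Finset V} {v : V} (h : v ∉ A) :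
    cA H S A v = dg H S v := by simp [cA, h]

theorem cA_le {H : SimpleGraph V} {S A : Finset V} (v : V) :
    cA H S A v ≤ dg H S v + 1 := by
  by_cases h : v ∈ A
  · rw [cA_mem h]
  · rw [cA_nmem h]; omega

theorem le_cA {H : SimpleGraph V} {S A : Finset V} (v : V) :
    dg H S v ≤ cA H S A v := by
  by_cases h : v ∈ A
  · rw [cA_mem h]; omega
  · rw [cA_nmem h]

theorem Gr_congr {c c' : V → ℕ} {S : Finset V} (h : Gr c S) (hc : ∀ x ∈ S, c' x = c x) :
    Gr c' S := by
  obtain ⟨H, hH⟩ := h
  exact ⟨H, fun v hv => (hH v hv).trans (hc v hv).symm⟩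

theorem Gr_cA {H : SimpleGraph V} {S A : Finset V} (hA : A ⊆ S) (he : Even A.card)
    (hind : ∀ x ∈ A, ∀ y ∈ A, ¬ H.Adj x y) : Gr (cA H S A) S :=
  Real.addMatching (H := H) (c := dg H S) (fun _ _ => rfl) hA he hind

theorem dg_erase' {H : SimpleGraph V} {S : Finset V} {x : V} (hx : x ∈ S) (v : V) :
    dg H (S.erase x) v + (if H.Adj v x then 1 else 0) = dg H S v := by
  unfold dg
  have h1 : (S.erase x).filter (fun w => H.Adj v w) = (S.filter (fun w => H.Adj v w)).erase x := by
    rw [Finset.filter_erase]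
  rw [h1]
  by_cases h : H.Adj v x
  · rw [if_pos h]
    have : x ∈ S.filter (fun w => H.Adj v w) := Finset.mem_filter.2 ⟨hx, h⟩
    rw [Finset.card_erase_of_mem this]
    have := Finset.card_pos.2 ⟨x, this⟩
    omega
  · rw [if_neg h, Finset.erase_eq_of_notMem (by simp [h])]
    rfl

theorem dg_pos {H : SimpleGraph V} {S : Finset V} {v w : V} (hw : w ∈ S) (h : H.Adj v w) :
    1 ≤ dg H S v :=
  Finset.card_pos.2 ⟨w, Finset.mem_filter.2 ⟨hw, h⟩⟩

/-- Residue of the indicator of an even set. -/
theorem R_ind (k : ℕ) : ∀ (S A : Finset V) (c : V → ℕ), A.card = k → A ⊆ S → Even A.card →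
    (∀ x ∈ S, c x = if x ∈ A then 1 else 0) → R c S + A.card / 2 = S.card := by
  induction k using Nat.strong_induction_on with
  | _ k ih =>
    intro S A c hk hA he hc
    rcases A.eq_empty_or_nonempty with rfl | ⟨v, hv⟩
    · rw [R_zero (fun x hx => by rw [hc x hx]; simp)]
      simp
    · have hne : (A.erase v).Nonempty := by
        rw [← Finset.card_pos, Finset.card_erase_of_mem hv]
        have := Finset.card_pos.2 ⟨v, hv⟩
        obtain ⟨r, hr⟩ := he
        omega
      obtain ⟨t, ht⟩ := hne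
      have ht' := Finset.mem_erase.1 ht
      have hvS := hA hv
      have htS := hA ht'.2
      have cv : c v = 1 := by rw [hc v hvS, if_pos hv]
      have ct : c t = 1 := by rw [hc t htS, if_pos ht'.2]
      have cle : ∀ x ∈ S, c x ≤ 1 := fun x hx => by rw [hc x hx]; split_ifs <;> omega
      have e1 : R c S = R (dec c {t}) (S.erase v) := by
        refine R_rec hvS (fun x hx => by rw [cv]; exact cle x hx) (by omega) ?_ (by simp [cv]) ?_
        · rw [Finset.singleton_subset_iff]
          exact Finset.mem_erase.2 ⟨ht'.1, htS⟩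
        · intro t' ht'' u hu _
          rw [Finset.mem_singleton.1 ht'', ct]
          exact cle u (Finset.mem_of_mem_erase hu)
      have hcard : ((A.erase v).erase t).card = A.card - 2 := by
        rw [Finset.card_erase_of_mem ht, Finset.card_erase_of_mem hv]; omega
      have hA2 : 2 ≤ A.card := by
        have := Finset.card_pos.2 ⟨t, ht⟩
        rw [Finset.card_erase_of_mem hv] at this
        omega
      have e2 := ih (A.card - 2) (by omega) (S.erase v) ((A.erase v).erase t) (dec c {t}) hcard ?_ ?_ ?_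
      · rw [e1]
        rw [hcard, Finset.card_erase_of_mem hvS] at e2
        have := Finset.card_pos.2 ⟨v, hvS⟩
        omega
      · exact (Finset.erase_subset _ _).trans (Finset.erase_subset_erase _ hA)
      · rw [hcard]
        obtain ⟨r, hr⟩ := he
        exact ⟨r - 1, by omega⟩
      · intro x hx
        have hx' := Finset.mem_erase.1 hx
        by_cases hxt : x = t
        · subst hxt
          rw [dec_mem (Finset.mem_singleton_self _), ct]; simp
        · rw [dec_nmem (by simpa using hxt), hc x hx'.2]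
          by_cases hxA : x ∈ A
          · rw [if_pos hxA, if_pos (Finset.mem_erase.2 ⟨hxt, Finset.mem_erase.2 ⟨hx'.1, hxA⟩⟩)]
          · rw [if_neg hxA, if_neg (fun h => hxA (Finset.mem_of_mem_erase (Finset.mem_of_mem_erase h)))]

section blocks

variable (G : SimpleGraph V) {m : ℕ} (a b : Fin m → V)

/-- `G` without the block edges `a i b i`. -/
def G0 : SimpleGraph V where
  Adj x y := G.Adj x y ∧ ¬ ∃ i, (x = a i ∧ y = b i) ∨ (x = b i ∧ y = a i)
  symm := by
    constructor
    intro x y h
    refine ⟨h.1.symm, ?_⟩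
    rintro ⟨i, h1 | h1⟩
    · exact h.2 ⟨i, Or.inr ⟨h1.2, h1.1⟩⟩
    · exact h.2 ⟨i, Or.inl ⟨h1.2, h1.1⟩⟩
  loopless := ⟨fun x h => G.loopless.irrefl x h.1⟩

def Zm (x : V) : Prop := ∃ i, x = a i ∨ x = b i

def Us (S : Finset V) : Finset (Fin m) := Finset.univ.filter (fun i => a i ∈ S ∧ b i ∈ S)

def Zs (S : Finset V) : Finset V := S.filter (fun x => Zm a b x)

/-- vertices of untouched blocks -/
def VU (S : Finset V) : Finset V := S.filter (fun x => ∃ i, (x = a i ∨ x = b i) ∧ a i ∈ S ∧ b i ∈ S)

def Hyp (S : Finset V) (r : ℕ) : Prop :=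
  ∀ A ⊆ Zs a b S, Even A.card → 2 * (Us a b S).card ≤ A.card →
    (∀ i ∈ Us a b S, a i ∈ A ∨ b i ∈ A) → r ≤ R (cA (G0 G a b) S A) S

variable {G a b}

structure Blk (G : SimpleGraph V) (a b : Fin m → V) : Prop where
  ia : Function.Injective a
  ib : Function.Injective b
  ab : ∀ i j, a i ≠ b j
  adj : ∀ i j, G.Adj (a i) (b j) ↔ i = j
  aa : ∀ i j, ¬ G.Adj (a i) (a j)
  bb : ∀ i j, ¬ G.Adj (b i) (b j)

theorem Blk.symm (h : Blk G a b) : Blk G b a where
  ia := h.ib
  ib := h.ia
  ab := fun i j e => h.ab j i e.symm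
  adj := fun i j => by rw [G.adj_comm, h.adj]; exact eq_comm
  aa := h.bb
  bb := h.aa

theorem Blk.indep (h : Blk G a b) {x y : V} (hx : Zm a b x) (hy : Zm a b y) :
    ¬ (G0 G a b).Adj x y := by
  rintro ⟨hadj, hn⟩
  obtain ⟨i, rfl | rfl⟩ := hx
  · obtain ⟨j, rfl | rfl⟩ := hy
    · exact h.aa i j hadj
    · obtain rfl := (h.adj i j).1 hadj
      exact hn ⟨i, Or.inl ⟨rfl, rfl⟩⟩
  · obtain ⟨j, rfl | rfl⟩ := hy
    · obtain rfl := (h.adj j i).1 hadj.symm
      exact hn ⟨j, Or.inr ⟨rfl, rfl⟩⟩
    · exact h.bb i j hadj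

theorem card_VU (h : Blk G a b) (S : Finset V) : (VU a b S).card = 2 * (Us a b S).card := by
  have h1 : VU a b S = (Us a b S).image a ∪ (Us a b S).image b := by
    ext x
    simp only [VU, Us, Finset.mem_filter, Finset.mem_union, Finset.mem_image, Finset.mem_univ,
      true_and]
    constructor
    · rintro ⟨_, i, rfl | rfl, h2⟩
      · exact Or.inl ⟨i, h2, rfl⟩
      · exact Or.inr ⟨i, h2, rfl⟩
    · rintro (⟨i, h2, rfl⟩ | ⟨i, h2, rfl⟩)
      · exact ⟨h2.1, i, Or.inl rfl, h2⟩
      · exact ⟨h2.2, i, Or.inr rfl, h2⟩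
  rw [h1, Finset.card_union_of_disjoint, Finset.card_image_of_injective _ h.ia,
    Finset.card_image_of_injective _ h.ib]
  · ring
  · rw [Finset.disjoint_left]
    intro x hx hx'
    obtain ⟨i, _, rfl⟩ := Finset.mem_image.1 hx
    obtain ⟨j, _, h2⟩ := Finset.mem_image.1 hx'
    exact h.ab i j h2.symm

theorem VU_subset (S : Finset V) : VU a b S ⊆ Zs a b S := by
  intro x hx
  obtain ⟨h1, i, h2, _⟩ := Finset.mem_filter.1 hx
  exact Finset.mem_filter.2 ⟨h1, i, h2⟩

/-- Deleting `x` along its whole `G0`-neighbourhood. -/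
theorem step_plain {S A : Finset V} {x : V} (hB : Blk G a b) (hx : x ∈ S)
    (hA : A ⊆ Zs a b S) (hxA : x ∉ A) (he : Even A.card) (hpos : 1 ≤ dg (G0 G a b) S x)
    (h1 : ∀ y ∈ S, (G0 G a b).Adj x y → cA (G0 G a b) S A y ≤ dg (G0 G a b) S x)
    (h2 : ∀ y ∈ S, cA (G0 G a b) S A y ≤ dg (G0 G a b) S x + 1) :
    R (cA (G0 G a b) S A) S ≤ R (cA (G0 G a b) (S.erase x) A) (S.erase x) := by
  set H := G0 G a b with hH
  have hAind : ∀ u ∈ A, ∀ v ∈ A, ¬ H.Adj u v := fun u hu v hv =>
    hB.indep (Finset.mem_filter.1 (hA hu)).2 (Finset.mem_filter.1 (hA hv)).2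
  have hAS : A ⊆ S := fun u hu => (Finset.mem_filter.1 (hA hu)).1
  have hASx : A ⊆ S.erase x := fun u hu =>
    Finset.mem_erase.2 ⟨fun e => hxA (e ▸ hu), hAS hu⟩
  have cx : cA H S A x = dg H S x := cA_nmem hxA
  have hval : ∀ y ∈ S.erase x, cA H (S.erase x) A y = dec (cA H S A) (S.filter (fun w => H.Adj x w)) y := by
    intro y hy
    have hyS := Finset.mem_of_mem_erase hy
    have hd := dg_erase' (H := H) hx y
    by_cases hadj : H.Adj x y
    · rw [dec_mem (Finset.mem_filter.2 ⟨hyS, hadj⟩)]
      rw [if_pos hadj.symm] at hd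
      by_cases hyA : y ∈ A
      · rw [cA_mem hyA, cA_mem hyA]; omega
      · rw [cA_nmem hyA, cA_nmem hyA]; omega
    · rw [dec_nmem (fun h => hadj (Finset.mem_filter.1 h).2)]
      rw [if_neg (fun h => hadj h.symm)] at hd
      by_cases hyA : y ∈ A
      · rw [cA_mem hyA, cA_mem hyA]; omega
      · rw [cA_nmem hyA, cA_nmem hyA]; omega
  rw [R_congr hval]
  refine LM hx (Gr_cA hAS he hAind) (by omega) ?_ (by rw [cx]; rfl) ?_ ?_ ?_ ?_
  · intro y hy
    obtain ⟨hy1, hy2⟩ := Finset.mem_filter.1 hy
    exact Finset.mem_erase.2 ⟨hy2.ne', hy1⟩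
  · intro y hy
    obtain ⟨hy1, hy2⟩ := Finset.mem_filter.1 hy
    exact (dg_pos hx hy2.symm).trans (le_cA y)
  · intro y hy
    obtain ⟨hy1, hy2⟩ := Finset.mem_filter.1 hy
    rw [cx]; exact h1 y hy1 hy2
  · intro y hy
    rw [cx]; exact h2 y hy
  · exact Gr_congr (Gr_cA hASx he hAind) (fun y hy => (hval y hy).symm)

/-- Deleting `x`, which has an extra neighbour `y`. -/
theorem step_pair {S A : Finset V} {x y : V} (hB : Blk G a b) (hx : x ∈ S) (hy : y ∈ Zs a b S)
    (hxZ : Zm a b x) (hxy : y ≠ x)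
    (hA : A ⊆ Zs a b S) (hxA : x ∉ A) (hyA : y ∉ A) (he : Even A.card)
    (h2 : ∀ t ∈ S, cA (G0 G a b) S (insert x (insert y A)) t ≤ dg (G0 G a b) S x + 1) :
    R (cA (G0 G a b) S (insert x (insert y A))) S ≤
      R (cA (G0 G a b) (S.erase x) A) (S.erase x) := by
  set H := G0 G a b with hH
  set B := insert x (insert y A) with hBdef
  have hyS := (Finset.mem_filter.1 hy).1
  have hyZ := (Finset.mem_filter.1 hy).2
  have hBZ : B ⊆ Zs a b S := by
    refine Finset.insert_subset (Finset.mem_filter.2 ⟨hx, hxZ⟩) (Finset.insert_subset hy hA)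
  have hBS : B ⊆ S := fun u hu => (Finset.mem_filter.1 (hBZ hu)).1
  have hBind : ∀ u ∈ B, ∀ v ∈ B, ¬ H.Adj u v := fun u hu v hv =>
    hB.indep (Finset.mem_filter.1 (hBZ hu)).2 (Finset.mem_filter.1 (hBZ hv)).2
  have hAind : ∀ u ∈ A, ∀ v ∈ A, ¬ H.Adj u v := fun u hu v hv =>
    hB.indep (Finset.mem_filter.1 (hA hu)).2 (Finset.mem_filter.1 (hA hv)).2
  have hASx : A ⊆ S.erase x := fun u hu =>
    Finset.mem_erase.2 ⟨fun e => hxA (e ▸ hu), (Finset.mem_filter.1 (hA hu)).1⟩
  have hBc : B.card = A.card + 2 := by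
    rw [hBdef, Finset.card_insert_of_notMem (by simp [hxA, Ne.symm hxy]),
      Finset.card_insert_of_notMem hyA]
  have hBe : Even B.card := by
    obtain ⟨r, hr⟩ := he
    exact ⟨r + 1, by omega⟩
  have hxy' : ¬ H.Adj x y := hB.indep hxZ hyZ
  have hyF : y ∉ S.filter (fun w => H.Adj x w) := fun h => hxy' (Finset.mem_filter.1 h).2
  have xB : x ∈ B := Finset.mem_insert_self _ _
  have yB : y ∈ B := Finset.mem_insert_of_mem (Finset.mem_insert_self _ _)
  have cx : cA H S B x = dg H S x + 1 := cA_mem xB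
  have hval : ∀ t ∈ S.erase x, cA H (S.erase x) A t =
      dec (cA H S B) (insert y (S.filter (fun w => H.Adj x w))) t := by
    intro t ht
    have htS := Finset.mem_of_mem_erase ht
    have htx := (Finset.mem_erase.1 ht).1
    have hd := dg_erase' (H := H) hx t
    by_cases hty : t = y
    · subst hty
      rw [dec_mem (Finset.mem_insert_self _ _), cA_mem yB, cA_nmem hyA]
      rw [if_neg (fun h => hxy' h.symm)] at hd
      omega
    · have hBA : t ∈ B ↔ t ∈ A := by simp [hBdef, htx, hty]
      by_cases hadj : H.Adj x t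
      · rw [dec_mem (Finset.mem_insert_of_mem (Finset.mem_filter.2 ⟨htS, hadj⟩))]
        rw [if_pos hadj.symm] at hd
        by_cases htA : t ∈ A
        · rw [cA_mem htA, cA_mem (hBA.2 htA)]; omega
        · rw [cA_nmem htA, cA_nmem (fun h => htA (hBA.1 h))]; omega
      · rw [dec_nmem (by
          rw [Finset.mem_insert, not_or]
          exact ⟨hty, fun h => hadj (Finset.mem_filter.1 h).2⟩)]
        rw [if_neg (fun h => hadj h.symm)] at hd
        by_cases htA : t ∈ A
        · rw [cA_mem htA, cA_mem (hBA.2 htA)]; omega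
        · rw [cA_nmem htA, cA_nmem (fun h => htA (hBA.1 h))]; omega
  rw [R_congr hval]
  refine LM hx (Gr_cA hBS hBe hBind) (by omega) ?_ ?_ ?_ ?_ ?_ ?_
  · refine Finset.insert_subset (Finset.mem_erase.2 ⟨hxy, hyS⟩) ?_
    intro t ht
    obtain ⟨ht1, ht2⟩ := Finset.mem_filter.1 ht
    exact Finset.mem_erase.2 ⟨ht2.ne', ht1⟩
  · rw [Finset.card_insert_of_notMem hyF, cx]; rfl
  · intro t ht
    rcases Finset.mem_insert.1 ht with rfl | ht
    · rw [cA_mem yB]; omega
    · obtain ⟨ht1, ht2⟩ := Finset.mem_filter.1 ht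
      exact (dg_pos hx ht2.symm).trans (le_cA t)
  · intro t ht
    rw [cx]
    rcases Finset.mem_insert.1 ht with rfl | ht
    · exact h2 _ hyS
    · exact h2 t (Finset.mem_filter.1 ht).1
  · intro t ht
    rw [cx]
    exact (h2 t ht).trans (by omega)
  · exact Gr_congr (Gr_cA hASx he hAind) (fun t ht => (hval t ht).symm)


/-- The case where only block edges are left. -/
theorem terminal (hB : Blk G a b) {S : Finset V} {r : ℕ} (hyp : Hyp G a b S r)
    (h0 : ∀ v ∈ S, dg (G0 G a b) S v = 0) :
    ∃ W ⊆ S, (∀ x ∈ W, ∀ y ∈ W, ¬ G.Adj x y) ∧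
      r + min ((Finset.univ.filter (fun i => a i ∈ W)).card)
        ((Finset.univ.filter (fun i => b i ∈ W)).card) ≤ W.card := by
  set H := G0 G a b with hH
  obtain ⟨E, hE, hEc⟩ := Finset.exists_subset_card_eq (s := Zs a b S \ VU a b S)
    (n := 2 * ((Zs a b S \ VU a b S).card / 2)) (by omega)
  have hdisj : Disjoint (VU a b S) E := by
    rw [Finset.disjoint_left]
    intro x hx hx'
    exact (Finset.mem_sdiff.1 (hE hx')).2 hx
  have hAZ : VU a b S ∪ E ⊆ Zs a b S :=
    Finset.union_subset (VU_subset S) (hE.trans Finset.sdiff_subset)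
  have hAS : VU a b S ∪ E ⊆ S := hAZ.trans (Finset.filter_subset _ _)
  have hAc : (VU a b S ∪ E).card = 2 * ((Us a b S).card + (Zs a b S \ VU a b S).card / 2) := by
    rw [Finset.card_union_of_disjoint hdisj, card_VU hB, hEc]; ring
  have hEv : Even (VU a b S ∪ E).card := by rw [hAc]; exact even_two_mul _
  have hr : r ≤ R (cA H S (VU a b S ∪ E)) S := hyp (VU a b S ∪ E) hAZ hEv (by rw [hAc]; omega) (by
    intro i hi
    have hi' := (Finset.mem_filter.1 hi).2
    left
    exact Finset.mem_union_left _ (Finset.mem_filter.2 ⟨hi'.1, i, Or.inl rfl, hi'⟩))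
  have hR := R_ind _ S (VU a b S ∪ E) (cA H S (VU a b S ∪ E)) rfl hAS
    hEv (by
      intro x hx
      unfold cA
      rw [h0 x hx]
      simp)
  -- counting the single blocks
  have hcount : (Finset.univ.filter (fun i => a i ∈ S ∧ b i ∉ S)).card +
      (Finset.univ.filter (fun i => b i ∈ S ∧ a i ∉ S)).card ≤ (Zs a b S \ VU a b S).card := by
    rw [← Finset.card_image_of_injective _ hB.ia, ← Finset.card_image_of_injective _ hB.ib,
      ← Finset.card_union_of_disjoint]
    · refine Finset.card_le_card ?_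
      intro x hx
      rcases Finset.mem_union.1 hx with hx | hx
      · obtain ⟨i, hi, rfl⟩ := Finset.mem_image.1 hx
        have hi' := (Finset.mem_filter.1 hi).2
        refine Finset.mem_sdiff.2 ⟨Finset.mem_filter.2 ⟨hi'.1, i, Or.inl rfl⟩, ?_⟩
        intro hV
        obtain ⟨_, j, hj, hj'⟩ := Finset.mem_filter.1 hV
        rcases hj with hj | hj
        · obtain rfl := hB.ia hj
          exact hi'.2 hj'.2
        · exact hB.ab _ _ hj
      · obtain ⟨i, hi, rfl⟩ := Finset.mem_image.1 hx
        have hi' := (Finset.mem_filter.1 hi).2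
        refine Finset.mem_sdiff.2 ⟨Finset.mem_filter.2 ⟨hi'.1, i, Or.inr rfl⟩, ?_⟩
        intro hV
        obtain ⟨_, j, hj, hj'⟩ := Finset.mem_filter.1 hV
        rcases hj with hj | hj
        · exact hB.ab _ _ hj.symm
        · obtain rfl := hB.ib hj
          exact hi'.2 hj'.1
    · rw [Finset.disjoint_left]
      intro x hx hx'
      obtain ⟨i, _, rfl⟩ := Finset.mem_image.1 hx
      obtain ⟨j, _, h2⟩ := Finset.mem_image.1 hx'
      exact hB.ab i j h2.symm
  have hblk : ∀ x ∈ S, ∀ y ∈ S, G.Adj x y → ∃ i, (x = a i ∧ y = b i) ∨ (x = b i ∧ y = a i) := by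
    intro x hx y hy hadj
    by_contra hcon
    have : 1 ≤ dg H S x := dg_pos hy ⟨hadj, hcon⟩
    rw [h0 x hx] at this
    omega
  by_cases hcmp : (Finset.univ.filter (fun i => a i ∈ S ∧ b i ∉ S)).card ≤
      (Finset.univ.filter (fun i => b i ∈ S ∧ a i ∉ S)).card
  · refine ⟨S \ (Us a b S).image a, Finset.sdiff_subset, ?_, ?_⟩
    · intro x hx y hy hadj
      rw [Finset.mem_sdiff] at hx hy
      obtain ⟨i, ⟨rfl, rfl⟩ | ⟨rfl, rfl⟩⟩ := hblk x hx.1 y hy.1 hadj
      · exact hx.2 (Finset.mem_image_of_mem _ (Finset.mem_filter.2 ⟨Finset.mem_univ _, hx.1, hy.1⟩))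
      · exact hy.2 (Finset.mem_image_of_mem _ (Finset.mem_filter.2 ⟨Finset.mem_univ _, hy.1, hx.1⟩))
    · have hsub : (Us a b S).image a ⊆ S := by
        intro x hx
        obtain ⟨i, hi, rfl⟩ := Finset.mem_image.1 hx
        exact (Finset.mem_filter.1 hi).2.1
      have hle : (Finset.univ.filter (fun i => a i ∈ S \ (Us a b S).image a)).card ≤
          (Finset.univ.filter (fun i => a i ∈ S ∧ b i ∉ S)).card := by
        refine Finset.card_le_card ?_
        intro i hi
        have hi' := Finset.mem_sdiff.1 (Finset.mem_filter.1 hi).2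
        refine Finset.mem_filter.2 ⟨Finset.mem_univ _, hi'.1, fun hb => hi'.2 ?_⟩
        exact Finset.mem_image_of_mem _ (Finset.mem_filter.2 ⟨Finset.mem_univ _, hi'.1, hb⟩)
      rw [Finset.card_sdiff_of_subset hsub, Finset.card_image_of_injective _ hB.ia]
      have := min_le_left ((Finset.univ.filter (fun i => a i ∈ S \ (Us a b S).image a)).card)
        ((Finset.univ.filter (fun i => b i ∈ S \ (Us a b S).image a)).card)
      omega
  · refine ⟨S \ (Us a b S).image b, Finset.sdiff_subset, ?_, ?_⟩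
    · intro x hx y hy hadj
      rw [Finset.mem_sdiff] at hx hy
      obtain ⟨i, ⟨rfl, rfl⟩ | ⟨rfl, rfl⟩⟩ := hblk x hx.1 y hy.1 hadj
      · exact hy.2 (Finset.mem_image_of_mem _ (Finset.mem_filter.2 ⟨Finset.mem_univ _, hx.1, hy.1⟩))
      · exact hx.2 (Finset.mem_image_of_mem _ (Finset.mem_filter.2 ⟨Finset.mem_univ _, hy.1, hx.1⟩))
    · have hsub : (Us a b S).image b ⊆ S := by
        intro x hx
        obtain ⟨i, hi, rfl⟩ := Finset.mem_image.1 hx
        exact (Finset.mem_filter.1 hi).2.2
      have hle : (Finset.univ.filter (fun i => b i ∈ S \ (Us a b S).image b)).card ≤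
          (Finset.univ.filter (fun i => b i ∈ S ∧ a i ∉ S)).card := by
        refine Finset.card_le_card ?_
        intro i hi
        have hi' := Finset.mem_sdiff.1 (Finset.mem_filter.1 hi).2
        refine Finset.mem_filter.2 ⟨Finset.mem_univ _, hi'.1, fun hb => hi'.2 ?_⟩
        exact Finset.mem_image_of_mem _ (Finset.mem_filter.2 ⟨Finset.mem_univ _, hb, hi'.1⟩)
      rw [Finset.card_sdiff_of_subset hsub, Finset.card_image_of_injective _ hB.ib]
      have := min_le_right ((Finset.univ.filter (fun i => a i ∈ S \ (Us a b S).image b)).card)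
        ((Finset.univ.filter (fun i => b i ∈ S \ (Us a b S).image b)).card)
      omega

/-- One deletion keeps the hypothesis. -/
theorem hyp_step (hB : Blk G a b) {S : Finset V} {r : ℕ} (hyp : Hyp G a b S r)
    (h0 : ¬ ∀ v ∈ S, dg (G0 G a b) S v = 0) : ∃ x ∈ S, Hyp G a b (S.erase x) r := by
  set H := G0 G a b with hH
  push Not at h0
  obtain ⟨v, hv, hv0⟩ := h0
  set κ : V → ℕ := fun y => if y ∈ VU a b S then 3 * (dg H S y + 1) else
    if Zm a b y then 3 * dg H S y + 2 else 3 * dg H S y + 1 with hκ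
  obtain ⟨x, hx, hmax⟩ := Finset.exists_max_image S κ ⟨v, hv⟩
  have kVU : ∀ y, y ∈ VU a b S → κ y = 3 * (dg H S y + 1) := fun y hy => by
    simp only [hκ, if_pos hy]
  have kZ : ∀ y, y ∉ VU a b S → Zm a b y → κ y = 3 * dg H S y + 2 := fun y hy hy' => by
    simp only [hκ, if_neg hy, if_pos hy']
  have kO : ∀ y, ¬ Zm a b y → κ y = 3 * dg H S y + 1 := fun y hy => by
    have : y ∉ VU a b S := fun h => hy (Finset.mem_filter.1 (VU_subset S h)).2
    simp only [hκ, if_neg this, if_neg hy]
  have klow : ∀ y, 3 * dg H S y + 1 ≤ κ y := by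
    intro y
    by_cases h1 : y ∈ VU a b S
    · rw [kVU y h1]; omega
    · by_cases h2 : Zm a b y
      · rw [kZ y h1 h2]; omega
      · rw [kO y h2]
  have kv := (klow v).trans (hmax v hv)
  refine ⟨x, hx, ?_⟩
  intro A hA he hcard hcov
  have hAZ : A ⊆ Zs a b S := by
    intro y hy
    have hy' := Finset.mem_filter.1 (hA hy)
    exact Finset.mem_filter.2 ⟨Finset.mem_of_mem_erase hy'.1, hy'.2⟩
  have hxA : x ∉ A := by
    intro h
    have hy' := Finset.mem_filter.1 (hA h)
    exact (Finset.mem_erase.1 hy'.1).1 rfl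
  have hAnot : ∀ y, ¬ Zm a b y → y ∉ A := fun y hy h => hy (Finset.mem_filter.1 (hA h)).2
  by_cases hxV : x ∈ VU a b S
  · -- `x` in an untouched block
    have kx := kVU x hxV
    obtain ⟨_, i, hxi, haS, hbS⟩ := Finset.mem_filter.1 hxV
    have hxZ : Zm a b x := ⟨i, hxi⟩
    have hiU : i ∈ Us a b S := Finset.mem_filter.2 ⟨Finset.mem_univ _, haS, hbS⟩
    have hneq : ∀ j, j ≠ i → a j ≠ x ∧ b j ≠ x := by
      intro j hj
      rcases hxi with rfl | rfl
      · exact ⟨fun e => hj (hB.ia e), fun e => hB.ab _ _ e.symm⟩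
      · exact ⟨fun e => hB.ab _ _ e, fun e => hj (hB.ib e)⟩
    have hUe : Us a b (S.erase x) = (Us a b S).erase i := by
      ext j
      simp only [Us, Finset.mem_filter, Finset.mem_univ, true_and, Finset.mem_erase]
      constructor
      · rintro ⟨⟨h1, h2⟩, h3, h4⟩
        refine ⟨?_, h2, h4⟩
        rintro rfl
        rcases hxi with h | h
        · exact h1 h.symm
        · exact h3 h.symm
      · rintro ⟨h1, h2, h3⟩
        exact ⟨⟨(hneq j h1).1, h2⟩, (hneq j h1).2, h3⟩
    rw [hUe, Finset.card_erase_of_mem hiU] at hcard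
    have hUpos : 0 < (Us a b S).card := Finset.card_pos.2 ⟨i, hiU⟩
    -- `dg x ≥ 1`
    have hdx : 1 ≤ dg H S x := by
      by_contra hcon
      have hx0 : dg H S x = 0 := by omega
      have h1 := hmax v hv
      rw [kx, hx0] at h1
      by_cases hvV : v ∈ VU a b S
      · rw [kVU v hvV] at h1; omega
      · have := klow v
        omega
    have hVUle : ∀ y ∈ S, y ∈ VU a b S → dg H S y ≤ dg H S x := by
      intro y hy hyV
      have := hmax y hy
      rw [kVU y hyV, kx] at this
      omega
    have hnVle : ∀ y ∈ S, y ∉ VU a b S → dg H S y ≤ dg H S x := by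
      intro y hy _
      have := hmax y hy
      have := klow y
      rw [kx] at *
      omega
    have hall : ∀ (B : Finset V), ∀ t ∈ S, cA H S B t ≤ dg H S x + 1 := by
      intro B t ht
      have h1 : cA H S B t ≤ dg H S t + 1 := cA_le t
      by_cases htV : t ∈ VU a b S
      · have := hVUle t ht htV; omega
      · have := hnVle t ht htV; omega
    by_cases hex : ∃ y ∈ Zs a b S, y ≠ x ∧ y ∉ A
    · obtain ⟨y, hy, hyx, hyA⟩ := hex
      refine le_trans ?_ (step_pair hB hx hy hxZ hyx hAZ hxA hyA he (hall _))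
      have hBc : (insert x (insert y A)).card = A.card + 2 := by
        rw [Finset.card_insert_of_notMem (by simp [hxA, Ne.symm hyx]),
          Finset.card_insert_of_notMem hyA]
      refine hyp _ ?_ ?_ ?_ ?_
      · exact Finset.insert_subset (Finset.mem_filter.2 ⟨hx, hxZ⟩) (Finset.insert_subset hy hAZ)
      · rw [hBc]; exact he.add (by decide)
      · rw [hBc]; omega
      · intro j hj
        by_cases hji : j = i
        · subst hji
          rcases hxi with rfl | rfl
          · exact Or.inl (Finset.mem_insert_self _ _)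
          · exact Or.inr (Finset.mem_insert_self _ _)
        · have := hcov j (by rw [hUe]; exact Finset.mem_erase.2 ⟨hji, hj⟩)
          rcases this with h | h
          · exact Or.inl (Finset.mem_insert_of_mem (Finset.mem_insert_of_mem h))
          · exact Or.inr (Finset.mem_insert_of_mem (Finset.mem_insert_of_mem h))
    · push Not at hex
      have hAeq : A = (Zs a b S).erase x := by
        ext y
        rw [Finset.mem_erase]
        constructor
        · intro hy; exact ⟨fun e => hxA (e ▸ hy), hAZ hy⟩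
        · rintro ⟨h1, h2⟩; exact hex y h2 h1
      have hxZs : x ∈ Zs a b S := Finset.mem_filter.2 ⟨hx, hxZ⟩
      have hAc : A.card + 1 = (Zs a b S).card := by
        rw [hAeq, Finset.card_erase_of_mem hxZs]
        have := Finset.card_pos.2 ⟨x, hxZs⟩
        omega
      have hVc := Finset.card_le_card (VU_subset (a := a) (b := b) S)
      rw [card_VU hB] at hVc
      have hlast : r ≤ R (cA H S A) S := by
        refine hyp A hAZ he ?_ ?_
        · obtain ⟨q, hq⟩ := he; omega
        · intro j hj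
          have hj' := (Finset.mem_filter.1 hj).2
          by_cases hji : j = i
          · subst hji
            rcases hxi with rfl | rfl
            · exact Or.inr (hex _ (Finset.mem_filter.2 ⟨hj'.2, j, Or.inr rfl⟩)
                (fun e => hB.ab _ _ e.symm))
            · exact Or.inl (hex _ (Finset.mem_filter.2 ⟨hj'.1, j, Or.inl rfl⟩)
                (fun e => hB.ab _ _ e))
          · exact Or.inl (hex _ (Finset.mem_filter.2 ⟨hj'.1, j, Or.inl rfl⟩) (hneq j hji).1)
      refine hlast.trans (step_plain hB hx hAZ hxA he hdx ?_ (hall A))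
      intro y hy hadj
      have hyZ : ¬ Zm a b y := fun h => hB.indep hxZ h hadj
      rw [cA_nmem (hAnot y hyZ)]
      have := hmax y hy
      rw [kO y hyZ, kx] at this
      change dg H S y ≤ dg H S x
      omega
  · -- `x` not in an untouched block
    have hUe : Us a b (S.erase x) = Us a b S := by
      ext j
      simp only [Us, Finset.mem_filter, Finset.mem_univ, true_and, Finset.mem_erase]
      constructor
      · rintro ⟨⟨_, h2⟩, _, h4⟩; exact ⟨h2, h4⟩
      · rintro ⟨h1, h2⟩
        refine ⟨⟨?_, h1⟩, ?_, h2⟩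
        · rintro rfl; exact hxV (Finset.mem_filter.2 ⟨hx, j, Or.inl rfl, h1, h2⟩)
        · rintro rfl; exact hxV (Finset.mem_filter.2 ⟨hx, j, Or.inr rfl, h1, h2⟩)
    rw [hUe] at hcard hcov
    have hlast : r ≤ R (cA H S A) S := hyp A hAZ he hcard hcov
    have hkx : κ x ≤ 3 * dg H S x + 2 := by
      by_cases h : Zm a b x
      · rw [kZ x hxV h]
      · rw [kO x h]; omega
    have hdx : 1 ≤ dg H S x := by
      have : 1 ≤ dg H S v := by omega
      omega
    have hle : ∀ y ∈ S, cA H S A y ≤ dg H S x + 1 := by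
      intro y hy
      have h1 : cA H S A y ≤ dg H S y + 1 := cA_le y
      have h2 := hmax y hy
      have h3 := klow y
      omega
    refine hlast.trans (step_plain hB hx hAZ hxA he hdx ?_ hle)
    intro y hy hadj
    change cA H S A y ≤ dg H S x
    have h2 := hmax y hy
    by_cases hxZ : Zm a b x
    · have hyZ : ¬ Zm a b y := fun h => hB.indep hxZ h hadj
      rw [cA_nmem (hAnot y hyZ)]
      rw [kO y hyZ] at h2
      omega
    · rw [kO x hxZ] at h2
      by_cases hyV : y ∈ VU a b S
      · rw [kVU y hyV] at h2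
        have : cA H S A y ≤ dg H S y + 1 := cA_le y
        omega
      · by_cases hyZ : Zm a b y
        · rw [kZ y hyV hyZ] at h2
          have : cA H S A y ≤ dg H S y + 1 := cA_le y
          omega
        · rw [kO y hyZ] at h2
          rw [cA_nmem (hAnot y hyZ)]
          omega

theorem main_ind (hB : Blk G a b) (r : ℕ) : ∀ (n : ℕ) (S : Finset V), S.card = n →
    Hyp G a b S r → ∃ W ⊆ S, (∀ x ∈ W, ∀ y ∈ W, ¬ G.Adj x y) ∧
      r + min ((Finset.univ.filter (fun i => a i ∈ W)).card)
        ((Finset.univ.filter (fun i => b i ∈ W)).card) ≤ W.card := by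
  intro n
  induction n with
  | zero =>
    intro S hS hyp
    refine terminal hB hyp ?_
    rw [Finset.card_eq_zero] at hS
    subst hS
    simp
  | succ n ih =>
    intro S hS hyp
    by_cases h0 : ∀ v ∈ S, dg (G0 G a b) S v = 0
    · exact terminal hB hyp h0
    · obtain ⟨x, hx, hyp'⟩ := hyp_step hB hyp h0
      obtain ⟨W, hW, h1, h2⟩ := ih (S.erase x) (by rw [Finset.card_erase_of_mem hx]; omega) hyp'
      exact ⟨W, hW.trans (Finset.erase_subset _ _), h1, h2⟩

end blocks

theorem mainProp [Fintype V] (G : SimpleGraph V) [DecidableRel G.Adj] : MainProp G := by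
  intro m a b ha hb hab hadj haa hbb
  have hB : Blk G a b := ⟨ha, hb, hab, hadj, haa, hbb⟩
  have hyp : Hyp G a b Finset.univ (residue G) := by
    intro A hA _ hcard _
    have hU : Us a b (Finset.univ : Finset V) = Finset.univ := by
      ext i; simp [Us]
    have hZV : Zs a b (Finset.univ : Finset V) = VU a b Finset.univ := by
      ext x; simp [Zs, VU, Zm]
    have hZc : (Zs a b (Finset.univ : Finset V)).card = 2 * m := by
      rw [hZV, card_VU hB, hU]; simp
    rw [hU, Finset.card_univ, Fintype.card_fin] at hcard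
    have hAZ : A = Zs a b Finset.univ := Finset.eq_of_subset_of_card_le hA (by omega)
    refine le_of_eq ?_
    unfold residue
    change R (fun v => G.degree v) Finset.univ = _
    refine R_congr ?_
    intro x _
    have hdeg : G.degree x = ((Finset.univ : Finset V).filter (fun w => G.Adj x w)).card := by
      rw [← SimpleGraph.card_neighborFinset_eq_degree]
      congr 1
      ext w; simp
    by_cases hx : Zm a b x
    · have hxA : x ∈ A := by rw [hAZ]; exact Finset.mem_filter.2 ⟨Finset.mem_univ _, hx⟩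
      rw [cA_mem hxA, hdeg]
      unfold dg
      -- the partner
      obtain ⟨p, hp, hpun⟩ : ∃ p, G.Adj x p ∧ ∀ w, (G0 G a b).Adj x w ↔ (G.Adj x w ∧ w ≠ p) := by
        obtain ⟨i, rfl | rfl⟩ := hx
        · refine ⟨b i, (hadj i i).2 rfl, ?_⟩
          intro w
          constructor
          · rintro ⟨h1, h2⟩
            exact ⟨h1, fun e => h2 ⟨i, Or.inl ⟨rfl, e⟩⟩⟩
          · rintro ⟨h1, h2⟩
            refine ⟨h1, ?_⟩
            rintro ⟨j, ⟨h3, h4⟩ | ⟨h3, h4⟩⟩
            · obtain rfl := ha h3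
              exact h2 h4
            · exact hab _ _ h3
        · refine ⟨a i, ((hadj i i).2 rfl).symm, ?_⟩
          intro w
          constructor
          · rintro ⟨h1, h2⟩
            exact ⟨h1, fun e => h2 ⟨i, Or.inr ⟨rfl, e⟩⟩⟩
          · rintro ⟨h1, h2⟩
            refine ⟨h1, ?_⟩
            rintro ⟨j, ⟨h3, h4⟩ | ⟨h3, h4⟩⟩
            · exact hab _ _ h3.symm
            · obtain rfl := hb h3
              exact h2 h4
      have hset : (Finset.univ : Finset V).filter (fun w => (G0 G a b).Adj x w) =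
          ((Finset.univ : Finset V).filter (fun w => G.Adj x w)).erase p := by
        ext w
        simp only [Finset.mem_filter, Finset.mem_univ, true_and, Finset.mem_erase]
        rw [hpun w]; exact and_comm
      rw [hset, Finset.card_erase_of_mem (Finset.mem_filter.2 ⟨Finset.mem_univ _, hp⟩)]
      have := Finset.card_pos.2 ⟨p, Finset.mem_filter.2 ⟨Finset.mem_univ p, hp⟩⟩
      have h9 : 0 < ((Finset.univ : Finset V).filter (fun w => G.Adj x w)).card := this
      have h10 : ((Finset.univ : Finset V).filter (fun w => G.Adj x w)).card =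
        ((Finset.univ : Finset V).filter (fun w => G.Adj x w)).card - 1 + 1 := by omega
      convert h10
    · have hxA : x ∉ A := by
        rw [hAZ]; exact fun h => hx (Finset.mem_filter.1 h).2
      rw [cA_nmem hxA, hdeg]
      unfold dg
      have hset : (Finset.univ : Finset V).filter (fun w => (G0 G a b).Adj x w) =
          (Finset.univ : Finset V).filter (fun w => G.Adj x w) := by
        ext w
        simp only [Finset.mem_filter, Finset.mem_univ, true_and]
        constructor
        · exact fun h => h.1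
        · intro h
          refine ⟨h, ?_⟩
          rintro ⟨j, ⟨h3, _⟩ | ⟨h3, _⟩⟩
          · exact hx ⟨j, Or.inl h3⟩
          · exact hx ⟨j, Or.inr h3⟩
      rw [hset]
  obtain ⟨W, _, h1, h2⟩ := main_ind hB (residue G) _ Finset.univ rfl hyp
  exact ⟨W, h1, h2⟩

end

end Pool.Agent.FRD
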