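import Pool.Agent.FRD.Residue
import Pool.Agent.FRD.Graphic

/-! Monotonicity of the Havel-Hakimi residue. -/

namespace Pool.Agent.FRD

variable {V : Type}

theorem dec_mem {c : V → ℕ} {T : Finset V} {x : V} (h : x ∈ T) : dec c T x = c x - 1 := by
  simp [dec, h]

theorem dec_nmem {c : V → ℕ} {T : Finset V} {x : V} (h : x ∉ T) : dec c T x = c x := by
  simp [dec, h]

theorem dec_le {c : V → ℕ} {T : Finset V} (x : V) : dec c T x ≤ c x := by
  simp [dec]

variable [DecidableEq V]

theorem exists_top (κ : V → ℕ) (S : Finset V) :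
    ∀ k ≤ S.card, ∃ T ⊆ S, T.card = k ∧ ∀ t ∈ T, ∀ u ∈ S, u ∉ T → κ u ≤ κ t := by
  intro k
  induction k with
  | zero => intro _; exact ⟨∅, by simp, by simp, by simp⟩
  | succ k ih =>
    intro hk
    obtain ⟨T, hTS, hTc, hT⟩ := ih (by omega)
    have hne : (S \ T).Nonempty := by
      rw [← Finset.card_pos, Finset.card_sdiff_of_subset hTS]
      omega
    obtain ⟨t0, ht0, hmax⟩ := Finset.exists_max_image (S \ T) κ hne
    rw [Finset.mem_sdiff] at ht0
    refine ⟨insert t0 T, Finset.insert_subset ht0.1 hTS, ?_, ?_⟩
    · rw [Finset.card_insert_of_notMem ht0.2, hTc]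
    · intro t ht u hu huT
      rw [Finset.mem_insert, not_or] at huT
      rcases Finset.mem_insert.1 ht with rfl | ht
      · exact hmax u (Finset.mem_sdiff.2 ⟨hu, huT.2⟩)
      · exact hT t ht u hu huT.2

/-- Unit transfers upwards do not decrease the residue. -/
def L2at (V : Type) (n : ℕ) : Prop :=
  ∀ (S : Finset V) (c c' : V → ℕ) (a b : V), S.card = n → a ∈ S → b ∈ S → a ≠ b →
    Gr c S → Gr c' S → c b ≤ c a + 1 → c' a = c a + 1 → c' b + 1 = c b →
    (∀ x ∈ S, x ≠ a → x ≠ b → c' x = c x) → R c S ≤ R c' S

/-- The condition under which removing an edge `bw` does not decrease the residue. -/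
def Kc (c : V → ℕ) (S : Finset V) (b w : V) : Prop :=
  c w ≤ c b ∧ ∃ P ⊆ S, b ∉ P ∧ w ∉ P ∧ (∀ x ∈ S, c x ≤ P.card + 1) ∧
    (((∀ x ∈ S, c x ≤ c b) ∧ ∀ t ∈ P, c w ≤ c t + 1) ∨ ∀ t ∈ P, c b ≤ c t + 1)

def LKat (V : Type) (n : ℕ) : Prop :=
  ∀ (S : Finset V) (c c' : V → ℕ) (b w : V), S.card = n → b ∈ S → w ∈ S → b ≠ w →
    Gr c S → Gr c' S → Kc c S b w → c' b + 1 = c b → c' w + 1 = c w →
    (∀ x ∈ S, x ≠ b → x ≠ w → c' x = c x) → R c S ≤ R c' S

omit [DecidableEq V] in
theorem LKat_zero : LKat V 0 := by
  intro S c c' b w hS hb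
  rw [Finset.card_eq_zero] at hS
  subst hS
  simp at hb

omit [DecidableEq V] in
theorem L2at_zero : L2at V 0 := by
  intro S c c' a b hS ha
  rw [Finset.card_eq_zero] at hS
  subst hS
  simp at ha

theorem LK_caseII {n : ℕ} (hk : LKat V n)
    {S : Finset V} {c c' : V → ℕ} {b w v : V} (hS : S.card = n + 1) (hb : b ∈ S) (hw : w ∈ S)
    (hbw : b ≠ w) (gc : Gr c S) (gc' : Gr c' S) (hK : Kc c S b w) (h1 : c' b + 1 = c b)
    (h2 : c' w + 1 = c w) (h3 : ∀ x ∈ S, x ≠ b → x ≠ w → c' x = c x)
    (hv : v ∈ S) (hvb : v ≠ b) (hvw : v ≠ w) (hmax : ∀ x ∈ S, c x ≤ c v) :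
    R c S ≤ R c' S := by
  obtain ⟨hwb, P, hPS, hbP, hwP, hPmax, halt⟩ := hK
  obtain ⟨T, hTS, hTc, hT⟩ := exists_top (fun x => 2 * c x + if x ≠ b ∧ x ≠ w then 1 else 0)
    (S.erase v) (c v) (gc.card_le hv)
  have hbS : b ∈ S.erase v := Finset.mem_erase.2 ⟨hvb.symm, hb⟩
  have hwS : w ∈ S.erase v := Finset.mem_erase.2 ⟨hvw.symm, hw⟩
  have hbv := hmax b hb
  have hwv := hmax w hw
  -- comparison facts
  have top : ∀ t ∈ T, ∀ u ∈ S.erase v, u ∉ T → c u ≤ c t := by
    intro t ht u hu huT
    have := hT t ht u hu huT
    split_ifs at this with g1 g2 g2 <;> omega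
  have top' : ∀ t ∈ T, ∀ u ∈ S.erase v, u ∉ T → c' u ≤ c' t := by
    intro t ht u hu huT
    have := hT t ht u hu huT
    have hu' := Finset.mem_erase.1 hu
    have ht' := Finset.mem_erase.1 (hTS ht)
    have hut : u ≠ t := fun h => huT (h ▸ ht)
    by_cases htb : t = b
    · subst htb
      by_cases huw : u = w
      · subst huw; omega
      · rw [h3 u hu'.2 hut huw]
        rw [if_pos ⟨hut, huw⟩, if_neg (by simp)] at this
        omega
    · by_cases htw : t = w
      · subst htw
        by_cases hub : u = b
        · subst hub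
          rw [if_neg (by simp), if_neg (by simp)] at this
          omega
        · rw [h3 u hu'.2 hub hut]
          rw [if_pos ⟨hub, hut⟩, if_neg (by simp)] at this
          omega
      · rw [h3 t ht'.2 htb htw]
        have h5 : c' u ≤ c u := by
          by_cases hub : u = b
          · subst hub; omega
          · by_cases huw : u = w
            · subst huw; omega
            · rw [h3 u hu'.2 hub huw]
        split_ifs at this <;> omega
  have hcv' : c' v = c v := h3 v hv hvb hvw
  have hle' : ∀ x ∈ S, c' x ≤ c x := by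
    intro x hx
    by_cases hxb : x = b
    · subst hxb; omega
    · by_cases hxw : x = w
      · subst hxw; omega
      · rw [h3 x hx hxb hxw]
  have e1 : R c S = R (dec c T) (S.erase v) :=
    R_rec hv hmax (by omega) hTS hTc top
  have e2 : R c' S = R (dec c' T) (S.erase v) := by
    refine R_rec hv ?_ (by omega) hTS (by omega) top'
    intro x hx
    have := hle' x hx
    have := hmax x hx
    omega
  obtain ⟨gf, pf⟩ := gc.hh hv hTS hTc top
  obtain ⟨gf', pf'⟩ := gc'.hh hv hTS (by omega) top'
  rw [e1, e2]
  have hSc : (S.erase v).card = n := by rw [Finset.card_erase_of_mem hv]; omega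
  -- pointwise relations
  have r1 : dec c' T b + 1 = dec c T b := by
    by_cases h : b ∈ T
    · rw [dec_mem h, dec_mem h]; have := pf' b h; omega
    · rw [dec_nmem h, dec_nmem h]; omega
  have r2 : dec c' T w + 1 = dec c T w := by
    by_cases h : w ∈ T
    · rw [dec_mem h, dec_mem h]; have := pf' w h; omega
    · rw [dec_nmem h, dec_nmem h]; omega
  have r3 : ∀ x ∈ S.erase v, x ≠ b → x ≠ w → dec c' T x = dec c T x := by
    intro x hx hxb hxw
    have := h3 x (Finset.mem_erase.1 hx).2 hxb hxw
    by_cases h : x ∈ T
    · rw [dec_mem h, dec_mem h, this]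
    · rw [dec_nmem h, dec_nmem h, this]
  have key : Kc (dec c T) (S.erase v) b w ∨ Kc (dec c T) (S.erase v) w b := by
    by_cases hbT : b ∈ T
    · by_cases hwT : w ∈ T
      · left
        refine ⟨by rw [dec_mem hbT, dec_mem hwT]; omega, P.erase v, ?_, ?_, ?_, ?_, ?_⟩
        · exact Finset.erase_subset_erase v hPS
        · exact fun h => hbP (Finset.mem_of_mem_erase h)
        · exact fun h => hwP (Finset.mem_of_mem_erase h)
        · intro x hx
          have hx' := Finset.mem_erase.1 hx
          have hPc : P.card - 1 ≤ (P.erase v).card := Finset.pred_card_le_card_erase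
          have hvP := hPmax v hv
          have : dec c T x ≤ c v - 1 := by
            by_cases h : x ∈ T
            · rw [dec_mem h]; have := hmax x hx'.2; omega
            · rw [dec_nmem h]
              have h5 := hT b hbT x hx h
              rw [if_pos ⟨fun e => h (e ▸ hbT), fun e => h (e ▸ hwT)⟩, if_neg (by simp)] at h5
              omega
          omega
        · rcases halt with ⟨hA, hB⟩ | hB
          · left
            refine ⟨?_, ?_⟩
            · intro x hx
              have hx' := Finset.mem_erase.1 hx
              rw [dec_mem hbT]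
              by_cases h : x ∈ T
              · rw [dec_mem h]; have := hA x hx'.2; omega
              · rw [dec_nmem h]
                have h5 := hT b hbT x hx h
                rw [if_pos ⟨fun e => h (e ▸ hbT), fun e => h (e ▸ hwT)⟩, if_neg (by simp)] at h5
                omega
            · intro t ht
              have := hB t (Finset.mem_of_mem_erase ht)
              rw [dec_mem hwT]
              by_cases h : t ∈ T
              · rw [dec_mem h]; omega
              · rw [dec_nmem h]; omega
          · right
            intro t ht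
            have := hB t (Finset.mem_of_mem_erase ht)
            rw [dec_mem hbT]
            by_cases h : t ∈ T
            · rw [dec_mem h]; omega
            · rw [dec_nmem h]; omega
      · by_cases hlt : c w < c b
        · left
          refine ⟨by rw [dec_mem hbT, dec_nmem hwT]; omega, P.erase v, ?_, ?_, ?_, ?_, ?_⟩
          · exact Finset.erase_subset_erase v hPS
          · exact fun h => hbP (Finset.mem_of_mem_erase h)
          · exact fun h => hwP (Finset.mem_of_mem_erase h)
          · intro x hx
            have hx' := Finset.mem_erase.1 hx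
            have hPc : P.card - 1 ≤ (P.erase v).card := Finset.pred_card_le_card_erase
            have hvP := hPmax v hv
            have : dec c T x ≤ c v - 1 := by
              by_cases h : x ∈ T
              · rw [dec_mem h]; have := hmax x hx'.2; omega
              · rw [dec_nmem h]
                by_cases hxw : x = w
                · subst hxw; omega
                · have h5 := hT b hbT x hx h
                  rw [if_pos ⟨fun e => h (e ▸ hbT), hxw⟩, if_neg (by simp)] at h5
                  omega
            omega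
          · rcases halt with ⟨hA, hB⟩ | hB
            · left
              refine ⟨?_, ?_⟩
              · intro x hx
                have hx' := Finset.mem_erase.1 hx
                rw [dec_mem hbT]
                by_cases h : x ∈ T
                · rw [dec_mem h]; have := hA x hx'.2; omega
                · rw [dec_nmem h]
                  by_cases hxw : x = w
                  · subst hxw; omega
                  · have h5 := hT b hbT x hx h
                    rw [if_pos ⟨fun e => h (e ▸ hbT), hxw⟩, if_neg (by simp)] at h5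
                    omega
              · intro t ht
                have htP := Finset.mem_of_mem_erase ht
                have := hB t htP
                rw [dec_nmem hwT]
                by_cases h : t ∈ T
                · rw [dec_mem h]
                  have h6 := top t h w hwS hwT
                  omega
                · rw [dec_nmem h]; omega
            · right
              intro t ht
              have := hB t (Finset.mem_of_mem_erase ht)
              rw [dec_mem hbT]
              by_cases h : t ∈ T
              · rw [dec_mem h]; omega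
              · rw [dec_nmem h]; omega
        · right
          refine ⟨by rw [dec_mem hbT, dec_nmem hwT]; omega, T.erase b, ?_, ?_, ?_, ?_, ?_⟩
          · exact (Finset.erase_subset _ _).trans hTS
          · exact fun h => hwT (Finset.mem_of_mem_erase h)
          · simp
          · intro x hx
            have hx' := Finset.mem_erase.1 hx
            rw [Finset.card_erase_of_mem hbT, hTc]
            have := dec_le (c := c) (T := T) x
            have := hmax x hx'.2
            omega
          · right
            intro t ht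
            have h6 := top t (Finset.mem_of_mem_erase ht) w hwS hwT
            rw [dec_nmem hwT, dec_mem (Finset.mem_of_mem_erase ht)]
            omega
    · by_cases hwT : w ∈ T
      · left
        have h6 := top w hwT b hbS hbT
        refine ⟨by rw [dec_nmem hbT, dec_mem hwT]; omega, T.erase w, ?_, ?_, ?_, ?_, ?_⟩
        · exact (Finset.erase_subset _ _).trans hTS
        · exact fun h => hbT (Finset.mem_of_mem_erase h)
        · simp
        · intro x hx
          have hx' := Finset.mem_erase.1 hx
          rw [Finset.card_erase_of_mem hwT, hTc]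
          have := dec_le (c := c) (T := T) x
          have := hmax x hx'.2
          omega
        · right
          intro t ht
          have h7 := top t (Finset.mem_of_mem_erase ht) b hbS hbT
          rw [dec_nmem hbT, dec_mem (Finset.mem_of_mem_erase ht)]
          omega
      · left
        refine ⟨by rw [dec_nmem hbT, dec_nmem hwT]; omega, T, hTS, hbT, hwT, ?_, ?_⟩
        · intro x hx
          have hx' := Finset.mem_erase.1 hx
          rw [hTc]
          have := dec_le (c := c) (T := T) x
          have := hmax x hx'.2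
          omega
        · right
          intro t ht
          have h7 := top t ht b hbS hbT
          rw [dec_nmem hbT, dec_mem ht]
          omega
  rcases key with key | key
  · exact hk _ _ _ b w hSc hbS hwS hbw gf gf' key r1 r2 r3
  · exact hk _ _ _ w b hSc hwS hbS hbw.symm gf gf' key r2 r1 (fun x hx h h' => r3 x hx h' h)

theorem LK_step {n : ℕ} (h2 : L2at V n) (hk : LKat V n) : LKat V (n + 1) := by
  intro S c c' b w hS hb hw hbw gc gc' hK h1 h2' h3
  by_cases hII : ∃ v ∈ S, v ≠ b ∧ v ≠ w ∧ ∀ x ∈ S, c x ≤ c v
  · obtain ⟨v, hv, hvb, hvw, hmax⟩ := hII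
    exact LK_caseII hk hS hb hw hbw gc gc' hK h1 h2' h3 hv hvb hvw hmax
  obtain ⟨hwb, P, hPS, hbP, hwP, hPmax, halt⟩ := hK
  -- `b` is a maximum
  have hbmax : ∀ x ∈ S, c x ≤ c b := by
    obtain ⟨v0, hv0, hm⟩ := Finset.exists_max_image S c ⟨b, hb⟩
    by_cases h : v0 = b
    · subst h; exact hm
    · by_cases h' : v0 = w
      · subst h'; intro x hx; exact (hm x hx).trans hwb
      · exact absurd ⟨v0, hv0, h, h', hm⟩ hII
  have hlt : ∀ x ∈ S, x ≠ b → x ≠ w → c x < c b := by
    intro x hx hxb hxw
    by_contra hcon
    exact hII ⟨x, hx, hxb, hxw, fun y hy => (hbmax y hy).trans (by omega)⟩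
  have hPw : ∀ t ∈ P, c w ≤ c t + 1 := by
    rcases halt with ⟨_, hB⟩ | hB
    · exact hB
    · intro t ht; exact hwb.trans (hB t ht)
  have hwS : w ∈ S.erase b := Finset.mem_erase.2 ⟨hbw.symm, hw⟩
  have hSc : (S.erase b).card = n := by rw [Finset.card_erase_of_mem hb]; omega
  have hbP' := hPmax b hb
  by_cases hcw : c w < c b
  · -- case I
    obtain ⟨T, hTS, hTc, hT⟩ := exists_top (fun x => 2 * c x + if x = w then 1 else 0)
      (S.erase b) (c b) (gc.card_le hb)
    have top : ∀ t ∈ T, ∀ u ∈ S.erase b, u ∉ T → c u ≤ c t := by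
      intro t ht u hu huT
      have := hT t ht u hu huT
      split_ifs at this with g1 g2 g2 <;> omega
    have e1 : R c S = R (dec c T) (S.erase b) := R_rec hb hbmax (by omega) hTS hTc top
    have hmax' : ∀ x ∈ S, c' x ≤ c' b := by
      intro x hx
      by_cases hxb : x = b
      · subst hxb; exact le_rfl
      · by_cases hxw : x = w
        · subst hxw; omega
        · rw [h3 x hx hxb hxw]; have := hlt x hx hxb hxw; omega
    rw [e1]
    by_cases hwT : w ∈ T
    · -- I-a
      have hTe : T.erase w ⊆ S.erase b := (Finset.erase_subset _ _).trans hTS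
      have hTec : (T.erase w).card = c' b := by rw [Finset.card_erase_of_mem hwT]; omega
      have top' : ∀ t ∈ T.erase w, ∀ u ∈ S.erase b, u ∉ T.erase w → c' u ≤ c' t := by
        intro t ht u hu huT
        have ht' := Finset.mem_erase.1 ht
        have htS := Finset.mem_erase.1 (hTS ht'.2)
        have hu' := Finset.mem_erase.1 hu
        rw [h3 t htS.2 htS.1 ht'.1]
        by_cases huw : u = w
        · rw [huw]
          by_contra hcon
          have hsub : P ⊆ (T.erase w).erase t := by
            intro p hp
            have hpw : p ≠ w := fun e => hwP (e ▸ hp)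
            have hpb : p ≠ b := fun e => hbP (e ▸ hp)
            have hp1 := hPw p hp
            have hpt : p ≠ t := by rintro rfl; omega
            have hpT : p ∈ T := by
              by_contra hpT
              have := top t ht'.2 p (Finset.mem_erase.2 ⟨hpb, hPS hp⟩) hpT
              omega
            exact Finset.mem_erase.2 ⟨hpt, Finset.mem_erase.2 ⟨hpw, hpT⟩⟩
          have hc := Finset.card_le_card hsub
          rw [Finset.card_erase_of_mem ht, Finset.card_erase_of_mem hwT] at hc
          have : 0 < (T.erase w).card := Finset.card_pos.2 ⟨t, ht⟩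
          rw [Finset.card_erase_of_mem hwT] at this
          omega
        · rw [h3 u hu'.2 hu'.1 huw]
          refine top t ht'.2 u hu (fun h => huT (Finset.mem_erase.2 ⟨huw, h⟩))
      have e2 : R c' S = R (dec c' (T.erase w)) (S.erase b) :=
        R_rec hb hmax' (by omega) hTe hTec top'
      rw [e2]
      refine (R_congr ?_).le
      intro x hx
      have hx' := Finset.mem_erase.1 hx
      by_cases hxw : x = w
      · subst hxw
        rw [dec_mem hwT, dec_nmem (by simp)]
        omega
      · by_cases hxT : x ∈ T
        · rw [dec_mem hxT, dec_mem (Finset.mem_erase.2 ⟨hxw, hxT⟩), h3 x hx'.2 hx'.1 hxw]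
        · rw [dec_nmem hxT, dec_nmem (fun h => hxT (Finset.mem_of_mem_erase h)),
            h3 x hx'.2 hx'.1 hxw]
    · -- I-b
      have hTw : ∀ t ∈ T, c w < c t := by
        intro t ht
        have := hT t ht w hwS hwT
        rw [if_pos rfl, if_neg (fun e : t = w => hwT (e ▸ ht))] at this
        omega
      have hTne : T.Nonempty := by rw [← Finset.card_pos]; omega
      obtain ⟨q, hq, hqmin⟩ := Finset.exists_min_image T c hTne
      have hqw : q ≠ w := fun e => hwT (e ▸ hq)
      have hqS := Finset.mem_erase.1 (hTS hq)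
      have hTe : T.erase q ⊆ S.erase b := (Finset.erase_subset _ _).trans hTS
      have hTec : (T.erase q).card = c' b := by rw [Finset.card_erase_of_mem hq]; omega
      have top' : ∀ t ∈ T.erase q, ∀ u ∈ S.erase b, u ∉ T.erase q → c' u ≤ c' t := by
        intro t ht u hu huT
        have ht' := Finset.mem_erase.1 ht
        have htS := Finset.mem_erase.1 (hTS ht'.2)
        have hu' := Finset.mem_erase.1 hu
        have htw : t ≠ w := fun e => hwT (e ▸ ht'.2)
        rw [h3 t htS.2 htS.1 htw]
        by_cases huw : u = w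
        · rw [huw]
          have := hTw t ht'.2
          omega
        · rw [h3 u hu'.2 hu'.1 huw]
          by_cases huq : u = q
          · rw [huq]; exact hqmin t ht'.2
          · exact top t ht'.2 u hu (fun h => huT (Finset.mem_erase.2 ⟨huq, h⟩))
      have e2 : R c' S = R (dec c' (T.erase q)) (S.erase b) :=
        R_rec hb hmax' (by omega) hTe hTec top'
      rw [e2]
      have gf := (gc.hh hb hTS hTc top).1
      have gf' := (gc'.hh hb hTe hTec top').1
      have hqT' : q ∉ T.erase q := by simp
      have hwT' : w ∉ T.erase q := fun h => hwT (Finset.mem_of_mem_erase h)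
      have hqw' := hTw q hq
      refine h2 _ _ _ q w hSc (hTS hq) hwS hqw gf gf' ?_ ?_ ?_ ?_
      · rw [dec_nmem hwT, dec_mem hq]; omega
      · rw [dec_nmem hqT', dec_mem hq, h3 q hqS.2 hqS.1 hqw]; omega
      · rw [dec_nmem hwT', dec_nmem hwT]; omega
      · intro x hx hxq hxw
        have hx' := Finset.mem_erase.1 hx
        by_cases hxT : x ∈ T
        · rw [dec_mem hxT, dec_mem (Finset.mem_erase.2 ⟨hxq, hxT⟩), h3 x hx'.2 hx'.1 hxw]
        · rw [dec_nmem hxT, dec_nmem (fun h => hxT (Finset.mem_of_mem_erase h)),
            h3 x hx'.2 hx'.1 hxw]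
  · -- case III
    have hcw' : c w = c b := by omega
    obtain ⟨P0, hP0, hP0c⟩ := Finset.exists_subset_card_eq (s := P) (n := c b - 1) (by omega)
    have hwP0 : w ∉ P0 := fun h => hwP (hP0 h)
    have hbP0 : b ∉ P0 := fun h => hbP (hP0 h)
    have hval : ∀ t ∈ P0, c t + 1 = c b := by
      intro t ht
      have := hPw t (hP0 ht)
      have := hlt t (hPS (hP0 ht)) (fun e => hbP0 (e ▸ ht)) (fun e => hwP0 (e ▸ ht))
      omega
    have hP0S : P0 ⊆ S.erase b := fun t ht =>
      Finset.mem_erase.2 ⟨fun e => hbP0 (e ▸ ht), hPS (hP0 ht)⟩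
    have hTS : insert w P0 ⊆ S.erase b := Finset.insert_subset hwS hP0S
    have hTc : (insert w P0).card = c b := by
      rw [Finset.card_insert_of_notMem hwP0, hP0c]; omega
    have top : ∀ t ∈ insert w P0, ∀ u ∈ S.erase b, u ∉ insert w P0 → c u ≤ c t := by
      intro t ht u hu huT
      have hu' := Finset.mem_erase.1 hu
      rw [Finset.mem_insert, not_or] at huT
      have := hlt u hu'.2 hu'.1 huT.1
      rcases Finset.mem_insert.1 ht with rfl | ht
      · omega
      · have := hval t ht; omega
    have e1 : R c S = R (dec c (insert w P0)) (S.erase b) := R_rec hb hbmax (by omega) hTS hTc top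
    rw [e1]
    have hmem : ∀ x ∈ S.erase b, x ≠ w → c' x = c x := fun x hx hxw =>
      h3 x (Finset.mem_erase.1 hx).2 (Finset.mem_erase.1 hx).1 hxw
    by_cases h1' : c' b = 0
    · -- everything becomes zero
      have z1 : R (dec c (insert w P0)) (S.erase b) = (S.erase b).card := by
        refine R_zero ?_
        intro x hx
        have hx' := Finset.mem_erase.1 hx
        by_cases hxw : x = w
        · subst hxw; rw [dec_mem (Finset.mem_insert_self _ _)]; omega
        · have := hlt x hx'.2 hx'.1 hxw
          have := dec_le (c := c) (T := insert w P0) x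
          omega
      have z2 : R c' S = S.card := by
        refine R_zero ?_
        intro x hx
        by_cases hxb : x = b
        · rw [hxb]; exact h1'
        · by_cases hxw : x = w
          · rw [hxw]; omega
          · rw [h3 x hx hxb hxw]; have := hlt x hx hxb hxw; omega
      rw [z1, z2]
      exact Finset.card_le_card (Finset.erase_subset _ _)
    · have hmax' : ∀ x ∈ S, c' x ≤ c' b := by
        intro x hx
        by_cases hxb : x = b
        · rw [hxb]
        · by_cases hxw : x = w
          · rw [hxw]; omega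
          · rw [h3 x hx hxb hxw]; have := hlt x hx hxb hxw; omega
      have top' : ∀ t ∈ P0, ∀ u ∈ S.erase b, u ∉ P0 → c' u ≤ c' t := by
        intro t ht u hu _
        rw [hmem t (hP0S ht) (fun e => hwP0 (e ▸ ht))]
        have := hval t ht
        have := hmax' u (Finset.mem_erase.1 hu).2
        omega
      have e2 : R c' S = R (dec c' P0) (S.erase b) :=
        R_rec hb hmax' (by omega) hP0S (by omega) top'
      rw [e2]
      refine (R_congr ?_).le
      intro x hx
      by_cases hxw : x = w
      · subst hxw
        rw [dec_mem (Finset.mem_insert_self _ _), dec_nmem hwP0]; omega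
      · by_cases hxT : x ∈ P0
        · rw [dec_mem (Finset.mem_insert_of_mem hxT), dec_mem hxT, hmem x hx hxw]
        · rw [dec_nmem (by rw [Finset.mem_insert, not_or]; exact ⟨hxw, hxT⟩), dec_nmem hxT,
            hmem x hx hxw]

theorem L2_caseA {n : ℕ} (h2 : L2at V n)
    {S : Finset V} {c c' : V → ℕ} {a b : V} (hS : S.card = n + 1) (ha : a ∈ S) (hb : b ∈ S)
    (hab : a ≠ b) (gc : Gr c S) (gc' : Gr c' S) (hle : c b ≤ c a) (h1 : c' a = c a + 1)
    (h2' : c' b + 1 = c b) (h3 : ∀ x ∈ S, x ≠ a → x ≠ b → c' x = c x)
    (hA : ∃ v ∈ S, c a < c v) : R c S ≤ R c' S := by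
  obtain ⟨v1, hv1, hv1a⟩ := hA
  obtain ⟨v, hv, hmax⟩ := Finset.exists_max_image S c ⟨v1, hv1⟩
  have hav : c a < c v := lt_of_lt_of_le hv1a (hmax v1 hv1)
  have hva : v ≠ a := by rintro rfl; omega
  have hvb : v ≠ b := by rintro rfl; omega
  obtain ⟨T, hTS, hTc, hT⟩ := exists_top
    (fun x => 3 * c x + if x = a then 2 else if x = b then 0 else 1) (S.erase v) (c v)
    (gc.card_le hv)
  have haS : a ∈ S.erase v := Finset.mem_erase.2 ⟨hva.symm, ha⟩
  have hbS : b ∈ S.erase v := Finset.mem_erase.2 ⟨hvb.symm, hb⟩
  have top : ∀ t ∈ T, ∀ u ∈ S.erase v, u ∉ T → c u ≤ c t := by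
    intro t ht u hu huT
    have := hT t ht u hu huT
    split_ifs at this <;> omega
  have top' : ∀ t ∈ T, ∀ u ∈ S.erase v, u ∉ T → c' u ≤ c' t := by
    intro t ht u hu huT
    have := hT t ht u hu huT
    have hu' := Finset.mem_erase.1 hu
    have ht' := Finset.mem_erase.1 (hTS ht)
    have hut : u ≠ t := fun h => huT (h ▸ ht)
    by_cases hta : t = a
    · subst hta
      by_cases hub : u = b
      · subst hub; omega
      · rw [h3 u hu'.2 hut hub, h1]
        rw [if_neg hut, if_neg hub, if_pos rfl] at this
        omega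
    · by_cases htb : t = b
      · subst htb
        by_cases hua : u = a
        · subst hua
          rw [if_pos rfl, if_neg hta, if_pos rfl] at this
          omega
        · rw [h3 u hu'.2 hua hut]
          rw [if_neg hua, if_neg hut, if_neg hta, if_pos rfl] at this
          omega
      · rw [h3 t ht'.2 hta htb]
        rw [if_neg hta, if_neg htb] at this
        by_cases hua : u = a
        · subst hua
          rw [if_pos rfl] at this
          omega
        · by_cases hub : u = b
          · subst hub
            rw [if_neg hua, if_pos rfl] at this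
            omega
          · rw [h3 u hu'.2 hua hub]
            rw [if_neg hua, if_neg hub] at this
            omega
  have hcv' : c' v = c v := h3 v hv hva hvb
  have e1 : R c S = R (dec c T) (S.erase v) := R_rec hv hmax (by omega) hTS hTc top
  have e2 : R c' S = R (dec c' T) (S.erase v) := by
    refine R_rec hv ?_ (by omega) hTS (by omega) top'
    intro x hx
    have := hmax x hx
    by_cases hxa : x = a
    · subst hxa; omega
    · by_cases hxb : x = b
      · subst hxb; omega
      · rw [h3 x hx hxa hxb]; omega
  obtain ⟨gf, pf⟩ := gc.hh hv hTS hTc top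
  obtain ⟨gf', pf'⟩ := gc'.hh hv hTS (by omega) top'
  rw [e1, e2]
  have hSc : (S.erase v).card = n := by rw [Finset.card_erase_of_mem hv]; omega
  refine h2 _ _ _ a b hSc haS hbS hab gf gf' ?_ ?_ ?_ ?_
  · have := dec_le (c := c) (T := T) b
    by_cases h : a ∈ T
    · rw [dec_mem h]; have := pf a h; omega
    · rw [dec_nmem h]; omega
  · by_cases h : a ∈ T
    · rw [dec_mem h, dec_mem h]; have := pf a h; omega
    · rw [dec_nmem h, dec_nmem h]; omega
  · by_cases h : b ∈ T
    · rw [dec_mem h, dec_mem h]; have := pf' b h; omega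
    · rw [dec_nmem h, dec_nmem h]; omega
  · intro x hx hxa hxb
    have := h3 x (Finset.mem_erase.1 hx).2 hxa hxb
    by_cases h : x ∈ T
    · rw [dec_mem h, dec_mem h, this]
    · rw [dec_nmem h, dec_nmem h, this]

theorem L2_caseB {n : ℕ} (hk : LKat V n)
    {S : Finset V} {c c' : V → ℕ} {a b : V} (hS : S.card = n + 1) (ha : a ∈ S) (hb : b ∈ S)
    (hab : a ≠ b) (gc : Gr c S) (gc' : Gr c' S) (hle : c b ≤ c a) (h1 : c' a = c a + 1)
    (h2' : c' b + 1 = c b) (h3 : ∀ x ∈ S, x ≠ a → x ≠ b → c' x = c x)
    (hB : ∀ x ∈ S, x ≠ a → c x ≤ c b) : R c S ≤ R c' S := by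
  have hmax : ∀ x ∈ S, c x ≤ c a := by
    intro x hx
    by_cases hxa : x = a
    · rw [hxa]
    · exact (hB x hx hxa).trans hle
  have hbS : b ∈ S.erase a := Finset.mem_erase.2 ⟨hab.symm, hb⟩
  obtain ⟨T, hTS, hTc, hT⟩ := exists_top
    (fun x => 2 * c x + if x = b then 0 else 1) (S.erase a) (c a) (gc.card_le ha)
  have top : ∀ t ∈ T, ∀ u ∈ S.erase a, u ∉ T → c u ≤ c t := by
    intro t ht u hu huT
    have := hT t ht u hu huT
    split_ifs at this <;> omega
  have hTb : b ∈ T → ∀ u ∈ S.erase a, u ∉ T → c u < c b := by
    intro hbT u hu huT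
    have := hT b hbT u hu huT
    rw [if_pos rfl, if_neg (fun e : u = b => huT (e ▸ hbT))] at this
    omega
  have hle' : ∀ x ∈ S, x ≠ a → c' x ≤ c x := by
    intro x hx hxa
    by_cases hxb : x = b
    · subst hxb; omega
    · rw [h3 x hx hxa hxb]
  -- the extra element `w`
  have hrest : ((S.erase a) \ T).Nonempty := by
    rw [← Finset.card_pos, Finset.card_sdiff_of_subset hTS]
    have := gc'.card_le ha
    omega
  obtain ⟨w, hw, hwmax⟩ := Finset.exists_max_image ((S.erase a) \ T)
    (fun x => 2 * c' x + if x = b then 0 else 1) hrest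
  rw [Finset.mem_sdiff] at hw
  obtain ⟨hwS, hwT⟩ := hw
  have hwS' := Finset.mem_erase.1 hwS
  have hT'S : insert w T ⊆ S.erase a := Finset.insert_subset hwS hTS
  have hT'c : (insert w T).card = c' a := by
    rw [Finset.card_insert_of_notMem hwT, hTc, h1]
  have top' : ∀ t ∈ insert w T, ∀ u ∈ S.erase a, u ∉ insert w T → c' u ≤ c' t := by
    intro t ht u hu huT
    rw [Finset.mem_insert, not_or] at huT
    have hu' := Finset.mem_erase.1 hu
    rcases Finset.mem_insert.1 ht with rfl | ht
    · have := hwmax u (Finset.mem_sdiff.2 ⟨hu, huT.2⟩)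
      split_ifs at this <;> omega
    · have ht' := Finset.mem_erase.1 (hTS ht)
      by_cases htb : t = b
      · subst htb
        have := hTb ht u hu huT.2
        have := hle' u hu'.2 hu'.1
        omega
      · rw [h3 t ht'.2 ht'.1 htb]
        exact (hle' u hu'.2 hu'.1).trans (top t ht u hu huT.2)
  have e1 : R c S = R (dec c T) (S.erase a) := R_rec ha hmax (by omega) hTS hTc top
  have e2 : R c' S = R (dec c' (insert w T)) (S.erase a) := by
    refine R_rec ha ?_ (by omega) hT'S hT'c top'
    intro x hx
    by_cases hxa : x = a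
    · rw [hxa]
    · have := hle' x hx hxa
      have := hmax x hx
      omega
  obtain ⟨gf, pf⟩ := gc.hh ha hTS hTc top
  obtain ⟨gf', pf'⟩ := gc'.hh ha hT'S hT'c top'
  rw [e1, e2]
  have hSc : (S.erase a).card = n := by rw [Finset.card_erase_of_mem ha]; omega
  have hw1 := pf' w (Finset.mem_insert_self _ _)
  have hmemT' : ∀ x, x ≠ w → (x ∈ insert w T ↔ x ∈ T) := by
    intro x hx; simp [hx]
  have r3 : ∀ x ∈ S.erase a, x ≠ b → x ≠ w → dec c' (insert w T) x = dec c T x := by
    intro x hx hxb hxw
    have hx' := Finset.mem_erase.1 hx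
    by_cases h : x ∈ T
    · rw [dec_mem h, dec_mem ((hmemT' x hxw).2 h), h3 x hx'.2 hx'.1 hxb]
    · rw [dec_nmem h, dec_nmem (fun g => h ((hmemT' x hxw).1 g)), h3 x hx'.2 hx'.1 hxb]
  by_cases hbT : b ∈ T
  · -- B3
    have hwb : w ≠ b := fun e => hwT (e ▸ hbT)
    have hwlt := hTb hbT w hwS hwT
    have hb1 := pf' b (Finset.mem_insert_of_mem hbT)
    have r1 : dec c' (insert w T) b + 1 = dec c T b := by
      rw [dec_mem hbT, dec_mem (Finset.mem_insert_of_mem hbT)]; omega
    have r2 : dec c' (insert w T) w + 1 = dec c T w := by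
      rw [dec_nmem hwT, dec_mem (Finset.mem_insert_self _ _), h3 w hwS'.2 hwS'.1 hwb]
      rw [h3 w hwS'.2 hwS'.1 hwb] at hw1
      omega
    refine hk _ _ _ b w hSc hbS hwS hwb.symm gf gf' ?_ r1 r2 r3
    refine ⟨by rw [dec_mem hbT, dec_nmem hwT]; omega, T.erase b, ?_, by simp, ?_, ?_, ?_⟩
    · exact (Finset.erase_subset _ _).trans hTS
    · exact fun h => hwT (Finset.mem_of_mem_erase h)
    · intro x hx
      rw [Finset.card_erase_of_mem hbT, hTc]
      have := dec_le (c := c) (T := T) x
      have := hmax x (Finset.mem_erase.1 hx).2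
      omega
    · left
      refine ⟨?_, ?_⟩
      · intro x hx
        have hx' := Finset.mem_erase.1 hx
        rw [dec_mem hbT]
        by_cases h : x ∈ T
        · rw [dec_mem h]; have := hB x hx'.2 hx'.1; omega
        · rw [dec_nmem h]; have := hTb hbT x hx h; omega
      · intro t ht
        have htT := Finset.mem_of_mem_erase ht
        rw [dec_nmem hwT, dec_mem htT]
        have := top t htT w hwS hwT
        omega
  · by_cases hwb : w = b
    · -- B2
      subst hwb
      have hTne : T.Nonempty := by rw [← Finset.card_pos]; omega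
      obtain ⟨t0, ht0⟩ := hTne
      have ht0S := Finset.mem_erase.1 (hTS ht0)
      have ht0w : t0 ≠ w := fun e => hwT (e ▸ ht0)
      have hval : ∀ t ∈ T, c t = c w := by
        intro t ht
        have ht' := Finset.mem_erase.1 (hTS ht)
        have := top t ht w hwS hwT
        have := hB t ht'.2 ht'.1
        omega
      have hct0 := hval t0 ht0
      set f := dec c T with hf
      set f' := dec c' (insert w T) with hf'
      have ft0 : f t0 = c w - 1 := by rw [hf, dec_mem ht0, hct0]
      have fw : f w = c w := by rw [hf, dec_nmem hwT]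
      have f't0 : f' t0 = c w - 1 := by
        rw [hf', dec_mem (Finset.mem_insert_of_mem ht0), h3 t0 ht0S.2 ht0S.1 ht0w, hct0]
      have f'w : f' w = c w - 2 := by
        rw [hf', dec_mem (Finset.mem_insert_self _ _)]; omega
      have hcw2 : 2 ≤ c w := by omega
      let e : V → ℕ := fun x => if x = w then c w - 1 else if x = t0 then c w - 2 else f x
      have ew : e w = c w - 1 := by simp [e]
      have et0 : e t0 = c w - 2 := by simp [e, ht0w]
      have eo : ∀ x, x ≠ w → x ≠ t0 → e x = f x := by
        intro x hx hx'; simp [e, hx, hx']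
      have ge : Gr e (S.erase a) := by
        refine gf'.transfer (hTS ht0) hwS (by omega) (by omega) (by omega) ?_
        intro x hx hx1 hx2
        rw [eo x hx2 hx1, r3 x hx hx2 hx2]
      have s1 : R f (S.erase a) ≤ R e (S.erase a) := by
        refine hk _ _ _ w t0 hSc hwS (hTS ht0) ht0w.symm gf ge ?_ (by omega) (by omega)
          (fun x hx hx1 hx2 => eo x hx1 hx2)
        refine ⟨by omega, T.erase t0, ?_, ?_, by simp, ?_, ?_⟩
        · exact (Finset.erase_subset _ _).trans hTS
        · exact fun h => hwT (Finset.mem_of_mem_erase h)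
        · intro x hx
          rw [Finset.card_erase_of_mem ht0, hTc]
          have : f x ≤ c x := dec_le x
          have := hmax x (Finset.mem_erase.1 hx).2
          omega
        · right
          intro t ht
          have htT := Finset.mem_of_mem_erase ht
          have : f t = c t - 1 := by rw [hf, dec_mem htT]
          have := hval t htT
          omega
      have s2 : R e (S.erase a) = R f' (S.erase a) := by
        refine R_swap (a := w) (b := t0) hwS (hTS ht0) (by omega) (by omega) ?_
        intro x hx hx1 hx2
        rw [eo x hx1 hx2, r3 x hx hx1 hx1]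
      omega
    · -- B1
      have hcw : c' w = c w := h3 w hwS'.2 hwS'.1 hwb
      have r1 : dec c' (insert w T) b + 1 = dec c T b := by
        rw [dec_nmem hbT, dec_nmem (fun g => hbT ((hmemT' b (Ne.symm hwb)).1 g))]; omega
      have r2 : dec c' (insert w T) w + 1 = dec c T w := by
        rw [dec_nmem hwT, dec_mem (Finset.mem_insert_self _ _)]
        omega
      refine hk _ _ _ b w hSc hbS hwS (Ne.symm hwb) gf gf' ?_ r1 r2 r3
      refine ⟨?_, T, hTS, hbT, hwT, ?_, ?_⟩
      · rw [dec_nmem hbT, dec_nmem hwT]; exact hB w hwS'.2 hwS'.1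
      · intro x hx
        rw [hTc]
        have := dec_le (c := c) (T := T) x
        have := hmax x (Finset.mem_erase.1 hx).2
        omega
      · right
        intro t ht
        rw [dec_nmem hbT, dec_mem ht]
        have := top t ht b hbS hbT
        omega

theorem L2_step {n : ℕ} (h2 : L2at V n) (hk : LKat V n) : L2at V (n + 1) := by
  intro S c c' a b hS ha hb hab gc gc' hle h1 h2' h3
  by_cases hsw : c b = c a + 1
  · refine (R_swap (a := a) (b := b) ha hb (by omega) (by omega) h3).ge
  have hle' : c b ≤ c a := by omega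
  by_cases hA : ∃ v ∈ S, c a < c v
  · exact L2_caseA h2 hS ha hb hab gc gc' hle' h1 h2' h3 hA
  by_cases hB : ∀ x ∈ S, x ≠ a → c x ≤ c b
  · exact L2_caseB hk hS ha hb hab gc gc' hle' h1 h2' h3 hB
  push Not at hA hB
  obtain ⟨m1, hm1, hm1a, hm1b⟩ := hB
  obtain ⟨m, hm, hmmax⟩ := Finset.exists_max_image (S.erase a) c ⟨m1, Finset.mem_erase.2 ⟨hm1a, hm1⟩⟩
  have hm' := Finset.mem_erase.1 hm
  have hmb : c b < c m := lt_of_lt_of_le hm1b (hmmax m1 (Finset.mem_erase.2 ⟨hm1a, hm1⟩))
  have hmneb : m ≠ b := by rintro rfl; omega
  have hma := hA m hm'.2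
  let d : V → ℕ := fun x => if x = a then c a + 1 else if x = m then c m - 1 else c x
  have da : d a = c a + 1 := by simp [d]
  have dm : d m = c m - 1 := by simp [d, hm'.1]
  have dother : ∀ x, x ≠ a → x ≠ m → d x = c x := by
    intro x hx hx'; simp [d, hx, hx']
  have db : d b = c b := dother b hab.symm hmneb.symm
  have c'm : c' m = c m := h3 m hm'.2 hm'.1 hmneb
  have gd : Gr d S := by
    refine gc'.transfer hm'.2 hb (by omega) (by omega) (by omega) ?_
    intro x hx hxm hxb
    by_cases hxa : x = a
    · rw [hxa, da, h1]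
    · rw [dother x hxa hxm, h3 x hx hxa hxb]
  have s1 : R c S ≤ R d S := by
    refine L2_caseB hk hS ha hm'.2 hm'.1.symm gc gd hma da (by omega) ?_ ?_
    · intro x _ hxa hxm; exact dother x hxa hxm
    · intro x hx hxa; exact hmmax x (Finset.mem_erase.2 ⟨hxa, hx⟩)
  have s2 : R d S ≤ R c' S := by
    refine L2_caseA h2 hS hm'.2 hb hmneb gd gc' (by omega) (by omega) (by omega) ?_ ⟨a, ha, by omega⟩
    intro x hx hxm hxb
    by_cases hxa : x = a
    · rw [hxa, da, h1]
    · rw [dother x hxa hxm, h3 x hx hxa hxb]
  exact s1.trans s2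

theorem L2_LK (n : ℕ) : L2at V n ∧ LKat V n := by
  induction n with
  | zero => exact ⟨L2at_zero, LKat_zero⟩
  | succ n ih => exact ⟨L2_step ih.1 ih.2, LK_step ih.1 ih.2⟩

theorem L2 {S : Finset V} {c c' : V → ℕ} {a b : V} (ha : a ∈ S) (hb : b ∈ S)
    (hab : a ≠ b) (gc : Gr c S) (gc' : Gr c' S) (hle : c b ≤ c a + 1) (h1 : c' a = c a + 1)
    (h2 : c' b + 1 = c b) (h3 : ∀ x ∈ S, x ≠ a → x ≠ b → c' x = c x) : R c S ≤ R c' S :=
  (L2_LK S.card).1 S c c' a b rfl ha hb hab gc gc' hle h1 h2 h3

theorem LK {S : Finset V} {c c' : V → ℕ} {b w : V} (hb : b ∈ S) (hw : w ∈ S)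
    (hbw : b ≠ w) (gc : Gr c S) (gc' : Gr c' S) (hK : Kc c S b w) (h1 : c' b + 1 = c b)
    (h2 : c' w + 1 = c w) (h3 : ∀ x ∈ S, x ≠ b → x ≠ w → c' x = c x) : R c S ≤ R c' S :=
  (L2_LK S.card).2 S c c' b w rfl hb hw hbw gc gc' hK h1 h2 h3

end Pool.Agent.FRD
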