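import Pool.Agent.FRD.Defs

/-! Basic facts on the Havel-Hakimi residue of a finite family of numbers. -/

namespace Pool.Agent.FRD

variable {V : Type}

theorem R_congr {c c' : V → ℕ} {S : Finset V} (h : ∀ x ∈ S, c x = c' x) : R c S = R c' S := by
  unfold R
  rw [Multiset.map_congr rfl (fun x hx => h x (Finset.mem_val.mp hx))]

theorem R_swap [DecidableEq V] {c c' : V → ℕ} {S : Finset V} {a b : V} (ha : a ∈ S) (hb : b ∈ S)
    (h1 : c' a = c b) (h2 : c' b = c a) (h : ∀ x ∈ S, x ≠ a → x ≠ b → c' x = c x) :
    R c' S = R c S := by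
  have hS : S.map (Equiv.swap a b).toEmbedding = S := by
    refine Finset.eq_of_subset_of_card_le (fun x hx => ?_) (by rw [Finset.card_map])
    rw [Finset.mem_map] at hx
    obtain ⟨y, hy, rfl⟩ := hx
    rw [Equiv.coe_toEmbedding]
    by_cases hya : y = a
    · rw [hya, Equiv.swap_apply_left]
      exact hb
    · by_cases hyb : y = b
      · rw [hyb, Equiv.swap_apply_right]
        exact ha
      · rw [Equiv.swap_apply_of_ne_of_ne hya hyb]
        exact hy
  have hmap : S.val.map c' = S.val.map c := by
    have h3 : S.val.map c' = S.val.map (fun x => c (Equiv.swap a b x)) := by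
      refine Multiset.map_congr rfl (fun x hx => ?_)
      have hx' : x ∈ S := Finset.mem_val.mp hx
      by_cases hxa : x = a
      · rw [hxa, Equiv.swap_apply_left]
        exact h1
      · by_cases hxb : x = b
        · rw [hxb, Equiv.swap_apply_right]
          exact h2
        · rw [Equiv.swap_apply_of_ne_of_ne hxa hxb]
          exact h x hx' hxa hxb
    rw [h3]
    conv_rhs => rw [← hS]
    rw [Finset.map_val, Multiset.map_map]
    rfl
  unfold R
  rw [hmap]

theorem R_zero {c : V → ℕ} {S : Finset V} (h : ∀ x ∈ S, c x = 0) : R c S = S.card := by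
  unfold R
  have hlen : ((S.val.map c).sort (· ≥ ·)).length = S.card := by
    rw [Multiset.length_sort, Multiset.card_map]
    rfl
  have hmem : ∀ d ∈ (S.val.map c).sort (· ≥ ·), d = 0 := by
    intro d hd
    rw [Multiset.mem_sort, Multiset.mem_map] at hd
    obtain ⟨x, hx, rfl⟩ := hd
    exact h x (Finset.mem_val.mp hx)
  generalize (S.val.map c).sort (· ≥ ·) = l at hlen hmem
  cases l with
  | nil => rw [residueList, ← hlen]; rfl
  | cons d t =>
    have hd : d = 0 := hmem d (List.mem_cons_self)
    rw [residueList, if_pos hd, ← hlen]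
    rfl

/-- Havel-Hakimi recursion with an arbitrary choice of the top set `T`. -/
theorem R_rec [DecidableEq V] {c : V → ℕ} {S T : Finset V} {v : V} (hv : v ∈ S)
    (hmax : ∀ x ∈ S, c x ≤ c v) (hpos : 1 ≤ c v) (hT : T ⊆ S.erase v) (hcard : T.card = c v)
    (htop : ∀ t ∈ T, ∀ u ∈ S.erase v, u ∉ T → c u ≤ c t) :
    R c S = R (dec c T) (S.erase v) := by
  classical
  set lT : List ℕ := (T.val.map c).sort (· ≥ ·) with hlT
  set lU : List ℕ := (((S.erase v) \ T).val.map c).sort (· ≥ ·) with hlU
  have hTU : T.val + ((S.erase v) \ T).val = (S.erase v).val := by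
    have h1 := Finset.disjUnion_eq_union T ((S.erase v) \ T) Finset.disjoint_sdiff
    have h2 : T ∪ ((S.erase v) \ T) = S.erase v := Finset.union_sdiff_of_subset hT
    rw [h2] at h1
    exact congrArg Finset.val h1
  have hSv : S.val = v ::ₘ (S.erase v).val := by
    have h1 := Finset.insert_erase hv
    have h2 := Finset.insert_val_of_notMem (Finset.notMem_erase v S)
    rw [h1] at h2
    exact h2
  have hsort : (S.val.map c).sort (· ≥ ·) = c v :: (lT ++ lU) := by
    refine List.Perm.eq_of_pairwise' (r := (· ≥ ·)) (Multiset.pairwise_sort _ _) ?_ ?_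
    · rw [List.pairwise_cons]
      refine ⟨?_, ?_⟩
      · intro d hd
        rw [List.mem_append, hlT, hlU, Multiset.mem_sort, Multiset.mem_sort, Multiset.mem_map,
          Multiset.mem_map] at hd
        rcases hd with ⟨x, hx, rfl⟩ | ⟨x, hx, rfl⟩
        · exact hmax x (Finset.mem_of_mem_erase (hT (Finset.mem_val.mp hx)))
        · exact hmax x (Finset.mem_of_mem_erase (Finset.mem_sdiff.mp (Finset.mem_val.mp hx)).1)
      · rw [List.pairwise_append]
        refine ⟨Multiset.pairwise_sort _ _, Multiset.pairwise_sort _ _, ?_⟩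
        intro d hd e he
        rw [hlT, Multiset.mem_sort, Multiset.mem_map] at hd
        rw [hlU, Multiset.mem_sort, Multiset.mem_map] at he
        obtain ⟨x, hx, rfl⟩ := hd
        obtain ⟨y, hy, rfl⟩ := he
        have hy' := Finset.mem_sdiff.mp (Finset.mem_val.mp hy)
        exact htop x (Finset.mem_val.mp hx) y hy'.1 hy'.2
    · rw [← Multiset.coe_eq_coe, Multiset.sort_eq, ← Multiset.cons_coe, ← Multiset.coe_add, hlT,
        hlU, Multiset.sort_eq, Multiset.sort_eq, hSv, Multiset.map_cons, ← hTU, Multiset.map_add]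
  have hlenT : lT.length = c v := by
    rw [hlT, Multiset.length_sort, Multiset.card_map, ← hcard]
    rfl
  have htake : (lT ++ lU).take (c v) = lT := by
    rw [← hlenT]
    exact List.take_left' rfl
  have hdrop : (lT ++ lU).drop (c v) = lU := by
    rw [← hlenT]
    exact List.drop_left' rfl
  have hstep : hhStep (c v :: (lT ++ lU)) = ((S.erase v).val.map (dec c T)).sort (· ≥ ·) := by
    unfold hhStep
    dsimp only
    rw [htake, hdrop]
    congr 1
    rw [← Multiset.coe_add, ← Multiset.map_coe, hlT, hlU, Multiset.sort_eq, Multiset.sort_eq,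
      Multiset.map_map, ← hTU, Multiset.map_add]
    congr 1
    · refine Multiset.map_congr rfl (fun x hx => ?_)
      simp only [dec, Function.comp_apply, if_pos (Finset.mem_val.mp hx)]
    · refine Multiset.map_congr rfl (fun x hx => ?_)
      have hx' := (Finset.mem_sdiff.mp (Finset.mem_val.mp hx)).2
      simp only [dec, if_neg hx', Nat.sub_zero]
  unfold R
  rw [hsort, residueList, if_neg (by omega), hstep]

end Pool.Agent.FRD
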